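import Pool.Agent.H99.EC.Def
import Pool.Agent.H68.HD.Grd

/-!
# Module Tay: the lower quadratic bound
`A` is `C²`, `fderiv (fderiv A) c` is positive definite (compactness of the unit sphere: `≥ 2 m ‖p‖²`), continuous, so `fderiv (fderiv A) x p p ≥ m ‖p‖²` for `x` in a ball; Taylor (second order
along `t ↦ A (c + t • p)`, or monotonicity of `t ↦ deriv - ...`).
-/

set_option autoImplicit false

open MeasureTheory Filter
open scoped RealInnerProductSpace

namespace Pool.Agent.H99.EC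

open Pool.Agent.H33.AM (E Tor pr IsPeriodic)
open Pool.Agent.H68.HD

variable {n : ℕ}

private theorem tay_inner_gradient (A : E n → ℝ) (c p : E n) : ⟪gradient A c, p⟫ = fderiv ℝ A c p := by
  unfold gradient
  exact InnerProductSpace.toDual_symm_apply

/-- A positive definite form is bounded below by a multiple of the square of the norm. -/
private theorem tay_form (H : E n →L[ℝ] E n →L[ℝ] ℝ) (hpos : ∀ p, p ≠ 0 → 0 < H p p) :
    ∃ m : ℝ, 0 < m ∧ ∀ p : E n, 2 * m * ‖p‖ ^ 2 ≤ H p p := by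
  have hmem : ∀ p : E n, p ≠ 0 → ‖p‖⁻¹ • p ∈ Metric.sphere (0 : E n) 1 := by
    intro p hp
    rw [mem_sphere_zero_iff_norm, norm_smul, norm_inv, norm_norm,
      inv_mul_cancel₀ (norm_ne_zero_iff.2 hp)]
  rcases (Metric.sphere (0 : E n) 1).eq_empty_or_nonempty with he | hne
  · refine ⟨1, one_pos, fun p => ?_⟩
    have hp : p = 0 := by
      by_contra hp
      have := hmem p hp
      rw [he] at this
      exact this
    rw [hp]
    simp
  · have hc : Continuous fun p : E n => H p p :=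
      (H.continuous).clm_apply continuous_id
    obtain ⟨p₁, hp₁, hmin⟩ := (isCompact_sphere (0 : E n) 1).exists_isMinOn hne hc.continuousOn
    have hp₁0 : p₁ ≠ 0 := by
      rintro rfl
      rw [mem_sphere_zero_iff_norm, norm_zero] at hp₁
      exact zero_ne_one hp₁
    refine ⟨H p₁ p₁ / 2, half_pos (hpos p₁ hp₁0), fun p => ?_⟩
    rcases eq_or_ne p 0 with rfl | hp
    · simp
    have h1 : H p₁ p₁ ≤ H (‖p‖⁻¹ • p) (‖p‖⁻¹ • p) := hmin (hmem p hp)
    have h2 : H (‖p‖⁻¹ • p) (‖p‖⁻¹ • p) = (‖p‖ ^ 2)⁻¹ * H p p := by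
      have h4 : H (‖p‖⁻¹ • p) = ‖p‖⁻¹ • H p := map_smul H _ _
      have h5 : H p (‖p‖⁻¹ • p) = ‖p‖⁻¹ • H p p := map_smul (H p) _ _
      have h6 : (‖p‖⁻¹ • H p) (‖p‖⁻¹ • p) = ‖p‖⁻¹ • H p (‖p‖⁻¹ • p) := rfl
      rw [h4, h6, h5, smul_eq_mul, smul_eq_mul, ← mul_assoc, pow_two, mul_inv]
    have h3 : 0 < ‖p‖ ^ 2 := by positivity
    rw [h2, le_inv_mul_iff₀ h3] at h1
    linarith

theorem quad_lower {A : E n → ℝ} (hA : ContDiff ℝ 2 A) (c : E n)
    (hpos : ∀ p, p ≠ 0 → 0 < fderiv ℝ (fderiv ℝ A) c p p) :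
    ∃ κ' p₀ : ℝ, 0 < κ' ∧ 0 < p₀ ∧ ∀ p : E n, ‖p‖ ≤ p₀ →
      κ' * ‖p‖ ^ 2 ≤ A (c + p) - A c - ⟪gradient A c, p⟫ := by
  have h1 : ContDiff ℝ 1 (fderiv ℝ A) := hA.fderiv_right (by norm_num)
  have h2 : Continuous (fderiv ℝ (fderiv ℝ A)) := h1.continuous_fderiv one_ne_zero
  obtain ⟨m, hm, hform⟩ := tay_form (fderiv ℝ (fderiv ℝ A) c) hpos
  have h2' : Continuous fun x => ‖fderiv ℝ (fderiv ℝ A) x - fderiv ℝ (fderiv ℝ A) c‖ :=
    (continuous_norm (E := E n →L[ℝ] E n →L[ℝ] ℝ)).comp (h2.sub continuous_const)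
  have h2'' : ∀ᶠ x in nhds c, ‖fderiv ℝ (fderiv ℝ A) x - fderiv ℝ (fderiv ℝ A) c‖ < m := by
    refine h2'.continuousAt.eventually_lt continuousAt_const ?_
    have h3 : ‖fderiv ℝ (fderiv ℝ A) c - fderiv ℝ (fderiv ℝ A) c‖ = 0 := by
      rw [sub_self]
      exact norm_zero (E := E n →L[ℝ] E n →L[ℝ] ℝ)
    exact h3.trans_lt hm
  obtain ⟨δ, hδ, hball⟩ := Metric.eventually_nhds_iff.1 h2''
  refine ⟨m / 2, δ / 2, half_pos hm, half_pos hδ, fun p hp => ?_⟩
  rw [tay_inner_gradient]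
  -- the second derivative along the segment
  have hH : ∀ t : ℝ, 0 ≤ t → t ≤ 1 →
      m * ‖p‖ ^ 2 ≤ fderiv ℝ (fderiv ℝ A) (c + t • p) p p := by
    intro t ht0 ht1
    have h3 : dist (c + t • p) c < δ := by
      rw [dist_eq_norm, add_sub_cancel_left, norm_smul, Real.norm_eq_abs, abs_of_nonneg ht0]
      have := mul_le_mul ht1 hp (norm_nonneg p) zero_le_one
      linarith
    have h4 := hball h3
    have h5 : |(fderiv ℝ (fderiv ℝ A) (c + t • p) - fderiv ℝ (fderiv ℝ A) c) p p| ≤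
        m * ‖p‖ ^ 2 := by
      rw [← Real.norm_eq_abs]
      refine (ContinuousLinearMap.le_opNorm _ _).trans ?_
      rw [pow_two, ← mul_assoc]
      refine mul_le_mul_of_nonneg_right ?_ (norm_nonneg p)
      refine (ContinuousLinearMap.le_opNorm _ _).trans ?_
      exact mul_le_mul_of_nonneg_right h4.le (norm_nonneg p)
    have h6 : (fderiv ℝ (fderiv ℝ A) (c + t • p) - fderiv ℝ (fderiv ℝ A) c) p p =
        fderiv ℝ (fderiv ℝ A) (c + t • p) p p - fderiv ℝ (fderiv ℝ A) c p p := rfl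
    rw [h6] at h5
    have h7 := (abs_le.1 h5).1
    have h8 := hform p
    linarith
  have hcur : ∀ t : ℝ, HasDerivAt (fun t : ℝ => c + t • p) p t := by
    intro t
    have h4 := ((hasDerivAt_id t).smul_const p).const_add c
    rw [one_smul] at h4
    exact h4
  have hd1 : ∀ t : ℝ, HasDerivAt (fun t : ℝ => A (c + t • p)) (fderiv ℝ A (c + t • p) p) t := by
    intro t
    have h3 : HasFDerivAt A (fderiv ℝ A (c + t • p)) (c + t • p) :=
      ((hA.differentiable two_ne_zero).differentiableAt).hasFDerivAt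
    exact h3.comp_hasDerivAt t (hcur t)
  have hd2 : ∀ t : ℝ, HasDerivAt (fun t : ℝ => fderiv ℝ A (c + t • p) p)
      (fderiv ℝ (fderiv ℝ A) (c + t • p) p p) t := by
    intro t
    have h3 : HasFDerivAt (fderiv ℝ A) (fderiv ℝ (fderiv ℝ A) (c + t • p)) (c + t • p) :=
      ((h1.differentiable one_ne_zero).differentiableAt).hasFDerivAt
    have h4 := h3.comp_hasDerivAt t (hcur t)
    have h5 := h4.clm_apply (hasDerivAt_const t p)
    rw [map_zero, add_zero] at h5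
    exact h5
  -- the first derivative grows at least linearly
  have hm1 : MonotoneOn (fun t : ℝ => fderiv ℝ A (c + t • p) p - m * ‖p‖ ^ 2 * t) (Set.Icc 0 1) := by
    have hd3 : ∀ t : ℝ, HasDerivAt (fun t : ℝ => fderiv ℝ A (c + t • p) p - m * ‖p‖ ^ 2 * t)
        (fderiv ℝ (fderiv ℝ A) (c + t • p) p p - m * ‖p‖ ^ 2) t := by
      intro t
      have h3 := (hd2 t).sub ((hasDerivAt_id t).const_mul (m * ‖p‖ ^ 2))
      rw [mul_one] at h3
      exact h3
    refine monotoneOn_of_deriv_nonneg (convex_Icc 0 1)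
      (fun t _ => (hd3 t).continuousAt.continuousWithinAt)
      (fun t _ => (hd3 t).differentiableAt.differentiableWithinAt) fun t ht => ?_
    rw [interior_Icc] at ht
    rw [(hd3 t).deriv]
    have := hH t ht.1.le ht.2.le
    linarith
  have hm2 : MonotoneOn (fun t : ℝ => A (c + t • p) - fderiv ℝ A c p * t - m / 2 * ‖p‖ ^ 2 * t ^ 2)
      (Set.Icc 0 1) := by
    have hd3 : ∀ t : ℝ, HasDerivAt
        (fun t : ℝ => A (c + t • p) - fderiv ℝ A c p * t - m / 2 * ‖p‖ ^ 2 * t ^ 2)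
        (fderiv ℝ A (c + t • p) p - fderiv ℝ A c p - m * ‖p‖ ^ 2 * t) t := by
      intro t
      have h3 := ((hd1 t).sub ((hasDerivAt_id t).const_mul (fderiv ℝ A c p))).sub
        ((hasDerivAt_pow 2 t).const_mul (m / 2 * ‖p‖ ^ 2))
      have h4 : fderiv ℝ A (c + t • p) p - fderiv ℝ A c p - m * ‖p‖ ^ 2 * t =
          fderiv ℝ A (c + t • p) p - fderiv ℝ A c p * 1 -
            m / 2 * ‖p‖ ^ 2 * (((2 : ℕ) : ℝ) * t ^ (2 - 1)) := by
        norm_num
        ring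
      rw [h4]
      exact h3
    refine monotoneOn_of_deriv_nonneg (convex_Icc 0 1)
      (fun t _ => (hd3 t).continuousAt.continuousWithinAt)
      (fun t _ => (hd3 t).differentiableAt.differentiableWithinAt) fun t ht => ?_
    rw [interior_Icc] at ht
    rw [(hd3 t).deriv]
    have h3 : fderiv ℝ A (c + (0 : ℝ) • p) p - m * ‖p‖ ^ 2 * 0 ≤
        fderiv ℝ A (c + t • p) p - m * ‖p‖ ^ 2 * t :=
      hm1 ⟨le_rfl, zero_le_one⟩ ⟨ht.1.le, ht.2.le⟩ ht.1.le
    rw [zero_smul, add_zero, mul_zero, sub_zero] at h3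
    linarith
  have h3 : A (c + (0 : ℝ) • p) - fderiv ℝ A c p * 0 - m / 2 * ‖p‖ ^ 2 * 0 ^ 2 ≤
      A (c + (1 : ℝ) • p) - fderiv ℝ A c p * 1 - m / 2 * ‖p‖ ^ 2 * 1 ^ 2 :=
    hm2 ⟨le_rfl, zero_le_one⟩ ⟨zero_le_one, le_rfl⟩ zero_le_one
  rw [zero_smul, add_zero, one_smul] at h3
  linarith

end Pool.Agent.H99.EC
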