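import Pool.Agent.H99.EC.Def
import Pool.Agent.H68.HD.S3
import Pool.Agent.H68.HD.S3b

/-!
# Module Ech: cheap closed chains that move (note 5670, (5))
`n2 hL (c + p)` with `η = κ' ‖p‖²/2`: a closed chain with `cost (Sp L (c + p) (alpha L (c + p))) f k ≤ η k`; `cost_shift` for `p` and (with `n1 hL (c + 2 • p)`) for `2 • p`.
-/

set_option autoImplicit false

open MeasureTheory Filter
open scoped RealInnerProductSpace

namespace Pool.Agent.H99.EC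

open Pool.Agent.H33.AM (E Tor pr IsPeriodic)
open Pool.Agent.H68.HD

variable {n : ℕ}

theorem ech {L : E n → E n → ℝ → ℝ} {κ K : ℝ} (hL : Growth L κ K) {c h : E n} {κ' K' p₀ : ℝ}
    (hκ : 0 < κ')
    (hlo : ∀ p, ‖p‖ ≤ p₀ → κ' * ‖p‖ ^ 2 ≤ alpha L (c + p) - alpha L c - ⟪h, p⟫)
    (hup : ∀ p, ‖p‖ ≤ p₀ → alpha L (c + p) - alpha L c - ⟪h, p⟫ ≤ K' * ‖p‖ ^ 2) (p : E n)
    (hp : p ≠ 0) (hp0 : 2 * ‖p‖ ≤ p₀) :
    ∃ f k z, Cl f k z ∧ cost (Sp L c (alpha L c)) f k ≤ k * ((κ' + 4 * K') * ‖p‖ ^ 2) ∧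
      k * (κ' / 2 * ‖p‖ ^ 2) ≤ ⟪p, zv z - (k : ℝ) • h⟫ := by
  have hp1 : 0 < ‖p‖ := norm_pos_iff.2 hp
  have hη : 0 < κ' / 2 * ‖p‖ ^ 2 := by positivity
  obtain ⟨f, k, z, hf, hc⟩ := n2 hL (c + p) (κ' / 2 * ‖p‖ ^ 2) hη
  have hz : f k - f 0 = zv z := by rw [hf.2]; abel
  have hk : (0 : ℝ) ≤ k := Nat.cast_nonneg k
  have h0 := n1 hL c f k z hf
  have h2 := n1 hL (c + (2 : ℝ) • p) f k z hf
  rw [cost_shift hL c p (alpha L c) (alpha L (c + p)), hz] at hc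
  rw [cost_shift hL c ((2 : ℝ) • p) (alpha L c) (alpha L (c + (2 : ℝ) • p)), hz,
    real_inner_smul_left] at h2
  have h3 := hlo p (by linarith)
  have h4 : ‖(2 : ℝ) • p‖ = 2 * ‖p‖ := by rw [norm_smul, Real.norm_ofNat]
  have h5 := hup ((2 : ℝ) • p) (by rw [h4]; exact hp0)
  rw [h4, real_inner_smul_right] at h5
  have h6 := mul_le_mul_of_nonneg_left h3 hk
  have h7 := mul_le_mul_of_nonneg_left h5 hk
  have h8 : (⟪p, zv z - (k : ℝ) • h⟫ : ℝ) = ⟪p, zv z⟫ - k * ⟪h, p⟫ := by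
    rw [inner_sub_right, real_inner_smul_right, real_inner_comm p h]
  have h9 : 0 ≤ (k : ℝ) * (κ' * ‖p‖ ^ 2) := mul_nonneg hk (by positivity)
  refine ⟨f, k, z, hf, ?_, ?_⟩
  · nlinarith [h0, h2, hc, h6, h7, h9]
  · rw [h8]
    nlinarith [h0, hc, h6, h9]

end Pool.Agent.H99.EC
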