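import Pool.Agent.H99.EC.Def

/-!
# Module Rep: repeating a closed chain (note 5670, (6))
`g i = f (i % k) + zv ((i / k : ℤ) • z)`: `g (i + k) = g i + zv z`, `D (g i) (g (i+1)) = D (f (i % k)) (f (i % k + 1))`, `DS g (r k) = r DS f k = r cost S f k`. Apply `hdr` to `g`, `N = r k`,
`r k + 2 ≤ (r + 2) k`: `r (⟪θ, zv z⟫ + σ k) ≤ C (1 + (r + 2) cost)` for all `r`.
-/

set_option autoImplicit false

open MeasureTheory Filter
open scoped RealInnerProductSpace

namespace Pool.Agent.H99.EC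

open Pool.Agent.H33.AM (E Tor pr IsPeriodic)
open Pool.Agent.H68.HD

variable {n : ℕ}

private theorem rep_step {S : E n → E n → ℝ} {a b κ K : ℝ} (hS : Pot S a b κ K) {u : E n → ℝ}
    {M Λ : ℝ} (hu : Sub S u M Λ) {f : ℕ → E n} {k : ℕ} {z : Fin n → ℤ} (hf : Cl f k z) (i : ℕ) :
    D S u (f (i % k) + zv (((i / k : ℕ) : ℤ) • z))
      (f ((i + 1) % k) + zv ((((i + 1) / k : ℕ) : ℤ) • z)) =
    D S u (f (i % k)) (f (i % k + 1)) := by
  have hk : 0 < k := hf.1
  have hlt : i % k < k := Nat.mod_lt _ hk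
  have hi : i = k * (i / k) + i % k := (Nat.div_add_mod i k).symm
  rcases Nat.lt_or_ge (i % k + 1) k with h | h
  · have h1 : (i + 1) % k = i % k + 1 := by
      conv_lhs => rw [hi, add_assoc, Nat.mul_add_mod, Nat.mod_eq_of_lt h]
    have h2 : (i + 1) / k = i / k := by
      conv_lhs => rw [hi, add_assoc, Nat.mul_add_div hk, Nat.div_eq_of_lt h, add_zero]
    rw [h1, h2, D_per hS hu]
  · have h0 : i % k + 1 = k := by omega
    have h1 : (i + 1) % k = 0 := by
      conv_lhs => rw [hi, add_assoc, h0, Nat.mul_add_mod, Nat.mod_self]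
    have h2 : (i + 1) / k = i / k + 1 := by
      conv_lhs => rw [hi, add_assoc, h0, Nat.mul_add_div hk, Nat.div_self hk]
    have h3 : f ((i + 1) % k) + zv ((((i + 1) / k : ℕ) : ℤ) • z)
        = f (i % k + 1) + zv (((i / k : ℕ) : ℤ) • z) := by
      rw [h1, h2, h0, hf.2, add_assoc, ← zv_add]
      congr 2
      push_cast
      rw [add_smul, one_smul, add_comm]
    rw [h3, D_per hS hu]

private theorem rep_DS {S : E n → E n → ℝ} {a b κ K : ℝ} (hS : Pot S a b κ K) {u : E n → ℝ}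
    {M Λ : ℝ} (hu : Sub S u M Λ) {f : ℕ → E n} {k : ℕ} {z : Fin n → ℤ} (hf : Cl f k z) (r : ℕ) :
    DS S u (fun i => f (i % k) + zv (((i / k : ℕ) : ℤ) • z)) (r * k) = r * DS S u f k := by
  induction r with
  | zero => simp [DS]
  | succ r ih =>
    have h1 : DS S u (fun i => f (i % k) + zv (((i / k : ℕ) : ℤ) • z)) ((r + 1) * k)
        = DS S u (fun i => f (i % k) + zv (((i / k : ℕ) : ℤ) • z)) (r * k) + DS S u f k := by
      unfold DS
      rw [add_mul, one_mul, Finset.sum_range_add]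
      congr 1
      refine Finset.sum_congr rfl fun j hj => ?_
      have hj' : j < k := Finset.mem_range.1 hj
      have h2 : (r * k + j) % k = j := by
        rw [mul_comm, Nat.mul_add_mod, Nat.mod_eq_of_lt hj']
      have h3 := rep_step hS hu hf (r * k + j)
      rw [h2] at h3
      simpa [h2] using h3
    rw [h1, ih]
    push_cast
    ring

theorem rep {S : E n → E n → ℝ} {a b κ K : ℝ} (hS : Pot S a b κ K) {u : E n → ℝ} {M Λ : ℝ}
    (hu : Sub S u M Λ) {θ : E n} {σ C : ℝ} (hC : 0 ≤ C)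
    (hdr : ∀ (g : ℕ → E n) (N : ℕ), ⟪θ, g N - g 0⟫ + σ * N ≤ C * (1 + DS S u g (N + 2)))
    {f : ℕ → E n} {k : ℕ} {z : Fin n → ℤ} (hf : Cl f k z) :
    ⟪θ, zv z⟫ + σ * k ≤ C * cost S f k := by
  have hk : 0 < k := hf.1
  rw [cost_eq_DS hu hf]
  have key : ∀ r : ℕ, (r : ℝ) * (⟪θ, zv z⟫ + σ * k) ≤ C * (1 + (r + 2) * DS S u f k) := by
    intro r
    have h1 := hdr (fun i => f (i % k) + zv (((i / k : ℕ) : ℤ) • z)) (r * k)
    have h2 : DS S u (fun i => f (i % k) + zv (((i / k : ℕ) : ℤ) • z)) (r * k + 2)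
        ≤ (r + 2) * DS S u f k := by
      have h3 := DS_mono hu (fun i => f (i % k) + zv (((i / k : ℕ) : ℤ) • z))
        (N := r * k + 2) (N' := (r + 2) * k) (by nlinarith)
      rw [rep_DS hS hu hf, Nat.cast_add, Nat.cast_ofNat] at h3
      exact h3
    have h4 : (fun i => f (i % k) + zv (((i / k : ℕ) : ℤ) • z)) (r * k)
        - (fun i => f (i % k) + zv (((i / k : ℕ) : ℤ) • z)) 0 = (r : ℝ) • zv z := by
      simp only [Nat.mul_mod_left, Nat.zero_mod, Nat.zero_div, Nat.mul_div_left r hk,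
        Nat.cast_zero, zero_smul, zv_zero, zv_smul]
      rw [add_zero, add_sub_cancel_left]
    rw [h4, real_inner_smul_right, Nat.cast_mul] at h1
    have h5 : C * (1 + DS S u (fun i => f (i % k) + zv (((i / k : ℕ) : ℤ) • z)) (r * k + 2))
        ≤ C * (1 + (r + 2) * DS S u f k) := mul_le_mul_of_nonneg_left (by linarith) hC
    nlinarith [h1, h5]
  by_contra hcon
  push Not at hcon
  obtain ⟨r, hr⟩ := exists_nat_gt
    (C * (1 + 2 * DS S u f k) / (⟪θ, zv z⟫ + σ * k - C * DS S u f k))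
  have hpos : 0 < ⟪θ, zv z⟫ + σ * k - C * DS S u f k := by linarith
  rw [div_lt_iff₀ hpos] at hr
  have := key r
  nlinarith

end Pool.Agent.H99.EC
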