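import Pool.Agent.H99.EC.Def

/-!
# Module FarC: closed chains based at far points are expensive (note 5670, (1))
Otherwise there are closed chains `f_j`, `f_j 0` far, of cost `< 1/(j+1)`; translate (`exists_near`; `Far` is invariant, `aub_add`), a subsequence of `f_j 0`
converges to `x` (compare `exists_aub` in H68/HD/D2.lean, with the private lemmas `d2_tr`, `d2_key` there: copy them); `x` is an Aubry
point (`move`), but `‖f_j 0 - x‖ ≥ ε`.
-/

set_option autoImplicit false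

open MeasureTheory Filter
open scoped RealInnerProductSpace

namespace Pool.Agent.H99.EC

open Pool.Agent.H33.AM (E Tor pr IsPeriodic)
open Pool.Agent.H68.HD

variable {n : ℕ}

private theorem farC_tr {S : E n → E n → ℝ} {a b κ K : ℝ} (hS : Pot S a b κ K) {f : ℕ → E n}
    {k : ℕ} {w : Fin n → ℤ} (hf : Cl f k w) (z : Fin n → ℤ) :
    Cl (fun i => f i + zv z) k w ∧ cost S (fun i => f i + zv z) k = cost S f k := by
  refine ⟨⟨hf.1, ?_⟩, ?_⟩
  · show f k + zv z = f 0 + zv z + zv w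
    rw [hf.2]
    abel
  · unfold cost
    exact Finset.sum_congr rfl (fun i _ => hS.per _ _ _)

private theorem farC_key {S : E n → E n → ℝ} {a b κ K : ℝ} (hS : Pot S a b κ K) {u : E n → ℝ}
    {M Λ : ℝ} (hu : Sub S u M Λ) {x : E n}
    (h : ∀ δ : ℝ, 0 < δ → ∃ f k z, Cl f k z ∧ ‖x - f 0‖ ≤ δ ∧ cost S f k ≤ δ) : Aub S x := by
  obtain ⟨C, hC, hm⟩ := move hS hu
  intro ε hε
  have hC1 : 0 < 1 + C := by linarith
  obtain ⟨f, k, z, hf, h0, hc⟩ := h (min 1 (ε / (1 + C))) (lt_min one_pos (div_pos hε hC1))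
  have h1 := h0.trans (min_le_left _ _)
  have h2 := hc.trans (min_le_left _ _)
  have h3 := h0.trans (min_le_right _ _)
  have h4 := hc.trans (min_le_right _ _)
  obtain ⟨g, hg, hg0, hgc⟩ := hm f k z x hf h2 h1
  refine ⟨g, k, z, hg, hg0, hgc.trans ?_⟩
  have h5 : C * ‖x - f 0‖ ≤ C * (ε / (1 + C)) := mul_le_mul_of_nonneg_left h3 hC
  have h6 : ε / (1 + C) + C * (ε / (1 + C)) = ε := by
    field_simp
  linarith

private theorem farC_far {S : E n → E n → ℝ} {a b κ K : ℝ} (hS : Pot S a b κ K) {ε : ℝ} {x : E n}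
    (h : Far S ε x) (z : Fin n → ℤ) : Far S ε (x + zv z) := by
  intro c hc
  have h1 := h (c + zv (-z)) (aub_add hS hc (-z))
  have h2 : x - (c + zv (-z)) = x + zv z - c := by
    rw [zv_neg]
    abel
  rwa [h2] at h1

theorem far_cost {S : E n → E n → ℝ} {a b κ K : ℝ} (hS : Pot S a b κ K) {u : E n → ℝ} {M Λ : ℝ}
    (hu : Sub S u M Λ) {ε : ℝ} (hε : 0 < ε) :
    ∃ κ₀ : ℝ, 0 < κ₀ ∧ ∀ f k z, Cl f k z → Far S ε (f 0) → κ₀ ≤ cost S f k := by
  by_contra hcon
  push Not at hcon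
  have hex : ∀ j : ℕ, ∃ f k z, Cl (n := n) f k z ∧ Far S ε (f 0) ∧
      f 0 ∈ Metric.closedBall (0 : E n) (Real.sqrt n) ∧ cost S f k ≤ 1 / ((j : ℝ) + 1) := by
    intro j
    obtain ⟨f, k, w, hf, hfar, hc⟩ := hcon (1 / ((j : ℝ) + 1)) (by positivity)
    obtain ⟨z, hz, -⟩ := exists_near (f 0)
    obtain ⟨h3, h4⟩ := farC_tr hS hf z
    refine ⟨fun i => f i + zv z, k, w, h3, farC_far hS hfar z, ?_, by rw [h4]; exact hc.le⟩
    rw [mem_closedBall_zero_iff]
    exact hz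
  choose f k z hf hfar hb hc using hex
  obtain ⟨x, -, φ, hφ, hlim⟩ := (isCompact_closedBall (0 : E n) (Real.sqrt n)).tendsto_subseq hb
  have e1 : ∀ δ : ℝ, 0 < δ → ∀ᶠ j in atTop, dist ((fun j => f j 0) (φ j)) x < δ := by
    intro δ hδ
    have := Metric.tendsto_nhds.1 hlim δ hδ
    exact this
  have hx : Aub S x := by
    refine farC_key hS hu (fun δ hδ => ?_)
    have e2 : ∀ᶠ j : ℕ in atTop, 1 / ((j : ℝ) + 1) < δ := by
      have := (tendsto_one_div_add_atTop_nhds_zero_nat (𝕜 := ℝ)).eventually (gt_mem_nhds hδ)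
      exact this
    obtain ⟨j, hj1, hj2⟩ := ((e1 δ hδ).and (hφ.tendsto_atTop.eventually e2)).exists
    refine ⟨f (φ j), k (φ j), z (φ j), hf _, ?_, (hc _).trans hj2.le⟩
    rw [← dist_eq_norm, dist_comm]
    exact hj1.le
  obtain ⟨j, hj⟩ := (e1 ε hε).exists
  have h1 := hfar (φ j) x hx
  rw [← dist_eq_norm] at h1
  exact absurd hj (not_lt.2 h1)

end Pool.Agent.H99.EC
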