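import Pool.Agent.H99.EC.Def

/-!
# Module Few: few visits at far points (note 5670, (1))
`R` from `step_bound`, `Λ₁` from `lip` for `R`, `η ≤ 1` with `(Λ₁ + |Λ|) η ≤ κ₀/2`, `N₀` from `pigeon η`; `κ₁ = min (κ₀/2) 1`. If `i₀ < ... < i_(N₀)` are far visits of `g`,
`pigeon` gives `p < q ≤ N₀` with `‖g i_p + zv z - g i_q‖ ≤ η`; the chain `g i_p, ..., g (i_q - 1), g i_p + zv z` is closed, based at a far point, so its cost is
`≥ κ₀`; its cost is (`closed_cost`) the sum of `D` over `[i_p, i_q)` changed in the last step by at most `(Λ₁ + |Λ|) η` if this step has `D ≤ 1` (compare `small` in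
H68/HD/D1.lean), so `∑ D ≥ κ₁` over `[i_0, i_(N₀))`. Then `#far visits in [0, N) ≤ (N₀ + 1)(1 + (1/κ₁) DS g N)` by strong induction on `N`: take the last
`N₀ + 1` visits off.
-/

set_option autoImplicit false

open MeasureTheory Filter
open scoped RealInnerProductSpace

namespace Pool.Agent.H99.EC

open Pool.Agent.H33.AM (E Tor pr IsPeriodic)
open Pool.Agent.H68.HD

variable {n : ℕ}

/-- One return of a far visit costs at least `κ₁`. -/
private theorem few_window {S : E n → E n → ℝ} {u : E n → ℝ} {M Λ : ℝ}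
    (hu : Sub S u M Λ) {ε κ₀ R Λ₁ η : ℝ}
    (h : ∀ f k z, Cl f k z → Far S ε (f 0) → κ₀ ≤ cost S f k)
    (hR : ∀ x y, S x y - u y + u x ≤ 1 → ‖y - x‖ ≤ R) (hΛ0 : 0 ≤ Λ₁)
    (hL : ∀ x y ξ : E n, ‖y - x‖ ≤ R → ‖ξ‖ ≤ 1 →
      |S (x + ξ) y - S x y| ≤ Λ₁ * ‖ξ‖ ∧ |S x (y + ξ) - S x y| ≤ Λ₁ * ‖ξ‖)
    (hη1 : η ≤ 1) (hη2 : (Λ₁ + |Λ|) * η ≤ κ₀ / 2)
    (g : ℕ → E n) {A m : ℕ} {z : Fin n → ℤ} (hA : Far S ε (g A))
    (hz : ‖g A + zv z - g (A + m + 1)‖ ≤ η) :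
    min (κ₀ / 2) 1 ≤ ∑ i ∈ Finset.range (m + 1), D S u (g (A + i)) (g (A + i + 1)) := by
  obtain ⟨G, hG⟩ : ∃ G : ℕ → E n, ∀ i, G i = if i < m + 1 then g (A + i) else g A + zv z :=
    ⟨_, fun _ => rfl⟩
  have hG1 : ∀ i, i < m + 1 → G i = g (A + i) := fun i hi => by rw [hG, if_pos hi]
  have hG2 : G (m + 1) = g A + zv z := by rw [hG, if_neg (lt_irrefl _)]
  have hGc : Cl G (m + 1) z := by
    refine ⟨Nat.succ_pos m, ?_⟩
    rw [hG2, hG1 0 (Nat.succ_pos m), Nat.add_zero]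
  have hfar : Far S ε (G 0) := by
    rw [hG1 0 (Nat.succ_pos m), Nat.add_zero]
    exact hA
  have hcost := h G (m + 1) z hGc hfar
  rw [closed_cost hu hGc, Finset.sum_range_succ] at hcost
  have h5 : ∑ i ∈ Finset.range m, (S (G i) (G (i + 1)) - u (G (i + 1)) + u (G i)) =
      ∑ i ∈ Finset.range m, D S u (g (A + i)) (g (A + i + 1)) := by
    refine Finset.sum_congr rfl fun i hi => ?_
    rw [Finset.mem_range] at hi
    rw [hG1 i (by omega), hG1 (i + 1) (by omega), ← Nat.add_assoc]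
    rfl
  rw [h5] at hcost
  rw [Finset.sum_range_succ]
  have hs0 : 0 ≤ ∑ i ∈ Finset.range m, D S u (g (A + i)) (g (A + i + 1)) :=
    Finset.sum_nonneg fun i _ => D_nonneg hu _ _
  by_cases hbig : D S u (g (A + m)) (g (A + m + 1)) ≤ 1
  · obtain ⟨x, hx⟩ : ∃ x : E n, x = g (A + m) := ⟨_, rfl⟩
    obtain ⟨y, hy⟩ : ∃ y : E n, y = g (A + m + 1) := ⟨_, rfl⟩
    obtain ⟨e, he⟩ : ∃ e : E n, e = g A + zv z - y := ⟨_, rfl⟩
    have he1 : ‖e‖ ≤ η := by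
      rw [he, hy]
      exact hz
    have he2 : g A + zv z = y + e := by
      rw [he]
      abel
    have hdxy : D S u (g (A + m)) (g (A + m + 1)) = S x y - u y + u x := by
      rw [hx, hy]
      rfl
    have hxy : ‖y - x‖ ≤ R := by
      apply hR
      rw [← hdxy]
      exact hbig
    have h7 := (hL x y e hxy (he1.trans hη1)).2
    have h8 := hu.lip y e (he1.trans hη1)
    have h9 : Λ * ‖e‖ ≤ |Λ| * η := by
      calc Λ * ‖e‖ ≤ |Λ| * ‖e‖ := mul_le_mul_of_nonneg_right (le_abs_self Λ) (norm_nonneg e)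
        _ ≤ |Λ| * η := mul_le_mul_of_nonneg_left he1 (abs_nonneg Λ)
    have h10 : Λ₁ * ‖e‖ ≤ Λ₁ * η := mul_le_mul_of_nonneg_left he1 hΛ0
    rw [hG1 m (Nat.lt_succ_self m), hG2, he2, ← hx] at hcost
    have h11 := (abs_le.1 h7).2
    have h12 := (abs_le.1 h8).1
    have h13 : (Λ₁ + |Λ|) * η = Λ₁ * η + |Λ| * η := by ring
    refine (min_le_left _ _).trans ?_
    rw [hdxy]
    linarith
  · refine (min_le_right _ _).trans ?_
    have := not_le.1 hbig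
    linarith

open Classical in
/-- Blocks of `L` far visits. -/
private theorem few_blocks {S : E n → E n → ℝ} {u : E n → ℝ} {M Λ : ℝ}
    (hu : Sub S u M Λ) {ε κ₁ η : ℝ} {N₀ : ℕ}
    (hpig : ∀ f : ℕ → E n, ∃ p q : ℕ, p < q ∧ q ≤ N₀ ∧ ∃ z : Fin n → ℤ, ‖f p + zv z - f q‖ ≤ η)
    (hwin : ∀ (g : ℕ → E n) (A m : ℕ) (z : Fin n → ℤ), Far S ε (g A) →
      ‖g A + zv z - g (A + m + 1)‖ ≤ η →
      κ₁ ≤ ∑ i ∈ Finset.range (m + 1), D S u (g (A + i)) (g (A + i + 1)))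
    (g : ℕ → E n) (j : ℕ) : ∀ N : ℕ, j * (N₀ + 1) ≤ Nat.count (fun i => Far S ε (g i)) N →
      κ₁ * j ≤ DS S u g N := by
  induction j with
  | zero =>
    intro N _
    rw [Nat.cast_zero, mul_zero]
    exact DS_nonneg hu g N
  | succ j ih =>
    intro N hN
    have hcard : ∀ k, k < Nat.count (fun i => Far S ε (g i)) N →
        ∀ hf : (Set.ofPred fun i => Far S ε (g i)).Finite, k < hf.toFinset.card :=
      fun k hk hf => hk.trans_le (Nat.count_le_card hf N)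
    have hidx : ∀ r, r ≤ N₀ → j * (N₀ + 1) + r < Nat.count (fun i => Far S ε (g i)) N := by
      intro r hr
      have h1 : (j + 1) * (N₀ + 1) = j * (N₀ + 1) + (N₀ + 1) := by ring
      omega
    obtain ⟨t, ht⟩ : ∃ t : ℕ → ℕ, ∀ r, t r = Nat.nth (fun i => Far S ε (g i)) (j * (N₀ + 1) + r) :=
      ⟨_, fun _ => rfl⟩
    have htN : ∀ r, r ≤ N₀ → t r < N := fun r hr => by
      rw [ht]
      exact Nat.nth_lt_of_lt_count (hidx r hr)
    have htF : ∀ r, r ≤ N₀ → Far S ε (g (t r)) := fun r hr => by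
      rw [ht]
      exact Nat.nth_mem (p := fun i => Far S ε (g i)) _ (hcard _ (hidx r hr))
    have htm : ∀ r r', r < r' → r' ≤ N₀ → t r < t r' := fun r r' hr hr' => by
      rw [ht, ht]
      exact Nat.nth_lt_nth' (Nat.add_lt_add_left hr _) (hcard _ (hidx r' hr'))
    have ht0 : Nat.count (fun i => Far S ε (g i)) (t 0) = j * (N₀ + 1) := by
      rw [ht, Nat.add_zero]
      have h1 := hidx 0 (Nat.zero_le _)
      rw [Nat.add_zero] at h1
      exact Nat.count_nth (hcard _ h1)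
    have hI := ih (t 0) ht0.ge
    obtain ⟨p, q, hpq, hqN, z, hz⟩ := hpig fun r => g (t r)
    have hz' : ‖g (t p) + zv z - g (t q)‖ ≤ η := hz
    have htpq : t p < t q := htm p q hpq hqN
    have h0p : t 0 ≤ t p := by
      rcases Nat.eq_zero_or_pos p with hp | hp
      · rw [hp]
      · exact (htm 0 p hp (by omega)).le
    obtain ⟨m, hm⟩ : ∃ m : ℕ, t q = t p + m + 1 := ⟨t q - t p - 1, by omega⟩
    rw [hm] at hz'
    have hw := hwin g (t p) m z (htF p (by omega)) hz'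
    have htqN := htN q hqN
    have hsum : DS S u g (t 0) +
        ∑ i ∈ Finset.range (m + 1), D S u (g (t p + i)) (g (t p + i + 1)) ≤ DS S u g N := by
      have h1 : ∑ i ∈ Finset.range (m + 1), D S u (g (t p + i)) (g (t p + i + 1)) =
          ∑ i ∈ Finset.Ico (t p) (t q), D S u (g i) (g (i + 1)) := by
        rw [Finset.sum_Ico_eq_sum_range, hm, Nat.add_assoc (t p) m 1, Nat.add_sub_cancel_left]
      have h2 : DS S u g (t 0) ≤ ∑ i ∈ Finset.range (t p), D S u (g i) (g (i + 1)) :=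
        DS_mono hu g h0p
      have h3 : ∑ i ∈ Finset.range (t p), D S u (g i) (g (i + 1)) +
          ∑ i ∈ Finset.Ico (t p) (t q), D S u (g i) (g (i + 1)) =
          ∑ i ∈ Finset.range (t q), D S u (g i) (g (i + 1)) :=
        Finset.sum_range_add_sum_Ico _ htpq.le
      have h4 : ∑ i ∈ Finset.range (t q), D S u (g i) (g (i + 1)) ≤ DS S u g N :=
        DS_mono hu g htqN.le
      rw [h1]
      linarith
    push_cast
    linarith

open Classical in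
theorem few {S : E n → E n → ℝ} {a b κ K : ℝ} (hS : Pot S a b κ K) {u : E n → ℝ} {M Λ : ℝ}
    (hu : Sub S u M Λ) {ε κ₀ : ℝ} (hκ : 0 < κ₀)
    (h : ∀ f k z, Cl f k z → Far S ε (f 0) → κ₀ ≤ cost S f k) :
    ∃ C : ℝ, 0 ≤ C ∧ ∀ (g : ℕ → E n) (N : ℕ),
      (((Finset.range N).filter fun i => Far S ε (g i)).card : ℝ) ≤ C * (1 + DS S u g N) := by
  obtain ⟨R, hR0, hR⟩ := step_bound hS hu
  obtain ⟨Λ₁, hΛ0, hL⟩ := lip hS R
  obtain ⟨c, hc⟩ : ∃ c : ℝ, c = Λ₁ + |Λ| := ⟨_, rfl⟩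
  have hc0 : 0 ≤ c := by
    rw [hc]
    positivity
  obtain ⟨η, hη⟩ : ∃ η : ℝ, η = min 1 (κ₀ / (2 * (c + 1))) := ⟨_, rfl⟩
  have hη0 : 0 < η := by
    rw [hη]
    positivity
  have hη1 : η ≤ 1 := by
    rw [hη]
    exact min_le_left _ _
  have hη2 : c * η ≤ κ₀ / 2 := by
    have h1 : η ≤ κ₀ / (2 * (c + 1)) := by
      rw [hη]
      exact min_le_right _ _
    have h3 : (c + 1) * η ≤ κ₀ / 2 := by
      calc (c + 1) * η ≤ (c + 1) * (κ₀ / (2 * (c + 1))) := mul_le_mul_of_nonneg_left h1 (by linarith)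
        _ = κ₀ / 2 := by
          field_simp
    nlinarith
  rw [hc] at hη2
  obtain ⟨N₀, hN₀, hpig⟩ := pigeon (n := n) η hη0
  obtain ⟨κ₁, hκ₁⟩ : ∃ κ₁ : ℝ, κ₁ = min (κ₀ / 2) 1 := ⟨_, rfl⟩
  have hκ₁0 : 0 < κ₁ := by
    rw [hκ₁]
    exact lt_min (by linarith) one_pos
  have hwin : ∀ (g : ℕ → E n) (A m : ℕ) (z : Fin n → ℤ), Far S ε (g A) →
      ‖g A + zv z - g (A + m + 1)‖ ≤ η →
      κ₁ ≤ ∑ i ∈ Finset.range (m + 1), D S u (g (A + i)) (g (A + i + 1)) := by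
    intro g A m z hA hz
    rw [hκ₁]
    exact few_window hu h hR hΛ0 hL hη1 hη2 g hA hz
  refine ⟨((N₀ : ℝ) + 1) * (1 + 1 / κ₁), by positivity, fun g N => ?_⟩
  have hblocks := fun j => few_blocks hu hpig hwin g j N
  rw [← Nat.count_eq_card_filter_range]
  obtain ⟨T, hT⟩ : ∃ T : ℕ, T = Nat.count (fun i => Far S ε (g i)) N := ⟨_, rfl⟩
  rw [← hT]
  have hb := hblocks (T / (N₀ + 1)) (by
    rw [← hT]
    exact Nat.div_mul_le_self T (N₀ + 1))
  have hDS := DS_nonneg hu g N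
  have hj : ((T / (N₀ + 1) : ℕ) : ℝ) ≤ (1 / κ₁) * DS S u g N := by
    rw [one_div, ← div_eq_inv_mul, le_div_iff₀ hκ₁0]
    linarith
  have hlt : (T : ℝ) ≤ (((T / (N₀ + 1) : ℕ) : ℝ) + 1) * ((N₀ : ℝ) + 1) := by
    have h1 := Nat.div_add_mod T (N₀ + 1)
    have h2 := Nat.mod_lt T (Nat.succ_pos N₀)
    have h3 : T ≤ (T / (N₀ + 1) + 1) * (N₀ + 1) := by
      calc T = (N₀ + 1) * (T / (N₀ + 1)) + T % (N₀ + 1) := h1.symm
        _ ≤ (N₀ + 1) * (T / (N₀ + 1)) + (N₀ + 1) := Nat.add_le_add_left h2.le _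
        _ = (T / (N₀ + 1) + 1) * (N₀ + 1) := by ring
    exact_mod_cast h3
  have hN0 : (0 : ℝ) ≤ N₀ := Nat.cast_nonneg _
  have hinv : 0 ≤ 1 / κ₁ := by positivity
  calc (T : ℝ) ≤ (((T / (N₀ + 1) : ℕ) : ℝ) + 1) * ((N₀ : ℝ) + 1) := hlt
    _ ≤ ((1 / κ₁) * DS S u g N + 1) * ((N₀ : ℝ) + 1) :=
        mul_le_mul_of_nonneg_right (by linarith) (by linarith)
    _ ≤ ((N₀ : ℝ) + 1) * (1 + 1 / κ₁) * (1 + DS S u g N) := by
        have h4 : (1 / κ₁) * DS S u g N + 1 ≤ (1 + 1 / κ₁) * (1 + DS S u g N) := by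
          nlinarith
        calc ((1 / κ₁) * DS S u g N + 1) * ((N₀ : ℝ) + 1)
            ≤ ((1 + 1 / κ₁) * (1 + DS S u g N)) * ((N₀ : ℝ) + 1) :=
              mul_le_mul_of_nonneg_right h4 (by linarith)
          _ = ((N₀ : ℝ) + 1) * (1 + 1 / κ₁) * (1 + DS S u g N) := by ring

end Pool.Agent.H99.EC
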