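import Pool.Agent.H99.EC.Def

/-!
# Module Lft: lifting a finite covering of the Aubry set
Choose a lift `v` of every element of `F` (`pr` is surjective), `F'` = the image; `exists_close` (private in H68/HD/Cov.lean: copy it).
-/

set_option autoImplicit false

open MeasureTheory Filter
open scoped RealInnerProductSpace

namespace Pool.Agent.H99.EC

open Pool.Agent.H33.AM (E Tor pr IsPeriodic)
open Pool.Agent.H68.HD

variable {n : ℕ}

private theorem lift_close {x y : E n} {d : ℝ} (hd : 0 ≤ d) (h : dist (pr x) (pr y) ≤ d) :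
    ∃ z : Fin n → ℤ, ‖x + zv z - y‖ ≤ Real.sqrt n * d := by
  refine ⟨fun i => -round (x i - y i), ?_⟩
  have h1 : ∀ i, |(x + zv (fun i => -round (x i - y i)) - y) i| ≤ d := by
    intro i
    have h2 : dist (pr x i) (pr y i) ≤ d := (dist_le_pi_dist (pr x) (pr y) i).trans h
    have h3 : pr x i - pr y i = (((x i - y i : ℝ)) : UnitAddCircle) := by
      simp [pr]
    rw [dist_eq_norm, h3, UnitAddCircle.norm_eq] at h2
    have h4 : (x + zv (fun i => -round (x i - y i)) - y) i = x i - y i - round (x i - y i) := by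
      simp [zv]
      ring
    rw [h4]
    exact h2
  rw [EuclideanSpace.norm_eq]
  have h5 : ∑ i, ‖(x + zv (fun i => -round (x i - y i)) - y) i‖ ^ 2 ≤ n * d ^ 2 := by
    calc ∑ i, ‖(x + zv (fun i => -round (x i - y i)) - y) i‖ ^ 2 ≤ ∑ _i : Fin n, d ^ 2 := by
          apply Finset.sum_le_sum
          intro i _
          rw [Real.norm_eq_abs]
          exact pow_le_pow_left₀ (abs_nonneg _) (h1 i) 2
      _ = n * d ^ 2 := by simp
  calc Real.sqrt (∑ i, ‖(x + zv (fun i => -round (x i - y i)) - y) i‖ ^ 2)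
      ≤ Real.sqrt (n * d ^ 2) := Real.sqrt_le_sqrt h5
    _ = Real.sqrt n * d := by
      rw [Real.sqrt_mul (Nat.cast_nonneg n), Real.sqrt_sq hd]

private theorem lift_surj (v : Tor n) : ∃ x : E n, pr x = v := by
  have h : ∀ i, ∃ r : ℝ, ((r : ℝ) : UnitAddCircle) = v i := fun i =>
    QuotientAddGroup.mk_surjective (v i)
  choose r hr using h
  exact ⟨WithLp.toLp 2 r, funext fun i => hr i⟩

theorem lift_cover {A : Set (Tor n)} {ε : ℝ} (hε : 0 ≤ ε) (F : Finset (Tor n))
    (hF : ∀ x ∈ A, ∃ v ∈ F, dist x v ≤ ε) :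
    ∃ F' : Finset (E n), F'.card ≤ F.card ∧
      ∀ x : E n, pr x ∈ A → ∃ v ∈ F', ∃ z, ‖x - (v + zv z)‖ ≤ Real.sqrt n * ε := by
  classical
  choose l hl using (lift_surj (n := n))
  refine ⟨F.image l, Finset.card_image_le, fun x hx => ?_⟩
  obtain ⟨v, hv, hxv⟩ := hF (pr x) hx
  rw [← hl v] at hxv
  obtain ⟨z, hz⟩ := lift_close hε hxv
  refine ⟨l v, Finset.mem_image_of_mem l hv, -z, ?_⟩
  have h1 : x - (l v + zv (-z)) = x + zv z - l v := by
    rw [zv_neg]; abel
  rw [h1]
  exact hz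

end Pool.Agent.H99.EC
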