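import Pool.Agent.H99.EC.Core
import Pool.Agent.H99.EC.Lft
import Pool.Agent.H99.EC.Tay
import Pool.Agent.H68.HD.S4

/-!
# Project EC (note 5670): every Aubry set has lower box dimension at least `n / (n + 1)`
-/

set_option autoImplicit false

open MeasureTheory Filter
open scoped RealInnerProductSpace

namespace Pool.Agent.H99.EC

open Pool.Agent.H33.AM (E Tor pr IsPeriodic)
open Pool.Agent.H68.HD

variable {n : ℕ}

/-- For small `ε`, a finite set `F` such that every point of the Aubry set of `c` has distance at most `ε` from `F` satisfies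
`|F|^(n+1) ε^n ≥ c₁`, and `q |F| ε ≥ c₁` if `q h` is an integer vector, `q ≥ 1`. -/
def BoxBound (L : E n → E n → ℝ → ℝ) (c h : E n) : Prop :=
  ∃ c₁ ε₀ : ℝ, 0 < c₁ ∧ 0 < ε₀ ∧ ∀ ε : ℝ, 0 < ε → ε ≤ ε₀ → ∀ F : Finset (Tor n),
    (∀ x ∈ aubry L c, ∃ v ∈ F, dist x v ≤ ε) →
      c₁ ≤ (F.card : ℝ) ^ (n + 1) * ε ^ n ∧
      ∀ (q : ℕ) (z : Fin n → ℤ), 0 < q → zv z = (q : ℝ) • h → c₁ ≤ q * (F.card * ε)

theorem local_bound {L : E n → E n → ℝ → ℝ} {κ K : ℝ} (hn : 0 < n) (hL : Growth L κ K) {c h : E n}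
    {κ' K' p₀ : ℝ} (hκ : 0 < κ') (hp₀ : 0 < p₀)
    (hlo : ∀ p, ‖p‖ ≤ p₀ → κ' * ‖p‖ ^ 2 ≤ alpha L (c + p) - alpha L c - ⟪h, p⟫)
    (hup : ∀ p, ‖p‖ ≤ p₀ → alpha L (c + p) - alpha L c - ⟪h, p⟫ ≤ K' * ‖p‖ ^ 2) :
    BoxBound L c h := by
  have hK : 0 < K' := by
    obtain ⟨p, hp⟩ : ∃ p : E n, ‖p‖ = p₀ := by
      refine ⟨p₀ • EuclideanSpace.single ⟨0, hn⟩ (1 : ℝ), ?_⟩
      rw [norm_smul, Real.norm_of_nonneg hp₀.le]
      simp
    have h1 := (hlo p hp.le).trans (hup p hp.le)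
    rw [hp] at h1
    have h2 : 0 < p₀ ^ 2 := by positivity
    have h3 := le_of_mul_le_mul_right h1 h2
    linarith
  obtain ⟨c₁, ε₀, hc₁, hε₀, hcov⟩ := cover_ge hL hn hκ hp₀ hlo hup hK
  have hn1 : (1 : ℝ) ≤ n := by exact_mod_cast hn
  have hs1 : 1 ≤ Real.sqrt n := by
    rw [Real.one_le_sqrt]
    exact hn1
  have hs0 : 0 < Real.sqrt n := lt_of_lt_of_le one_pos hs1
  refine ⟨c₁ / Real.sqrt n ^ n, ε₀ / Real.sqrt n, by positivity, by positivity,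
    fun ε hε hεε₀ F hF => ?_⟩
  obtain ⟨F', hcard, hF'⟩ := lift_cover hε.le F hF
  have hcard' : (F'.card : ℝ) ≤ F.card := by exact_mod_cast hcard
  have hε1 : Real.sqrt n * ε ≤ ε₀ := by
    rw [le_div_iff₀ hs0] at hεε₀
    linarith
  obtain ⟨h1, h2⟩ := hcov (Real.sqrt n * ε) (by positivity) hε1 F'
    (fun x hx => hF' x (aubry_of_aub hL c hx))
  refine ⟨?_, fun q z hq hz => ?_⟩
  · rw [div_le_iff₀ (by positivity)]
    calc c₁ ≤ (F'.card : ℝ) ^ (n + 1) * (Real.sqrt n * ε) ^ n := h1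
      _ ≤ (F.card : ℝ) ^ (n + 1) * (Real.sqrt n * ε) ^ n :=
        mul_le_mul_of_nonneg_right (pow_le_pow_left₀ (Nat.cast_nonneg _) hcard' _) (by positivity)
      _ = _ := by
        rw [mul_pow]
        ring
  · have h3 := h2 q z hq hz
    rw [div_le_iff₀ (by positivity)]
    have h4 : Real.sqrt n ≤ Real.sqrt n ^ n := by
      calc Real.sqrt n = Real.sqrt n ^ 1 := (pow_one _).symm
        _ ≤ Real.sqrt n ^ n := pow_le_pow_right₀ hs1 hn
    have h5 : 0 ≤ (q : ℝ) * (F.card * ε) := by positivity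
    calc c₁ ≤ q * (F'.card * (Real.sqrt n * ε)) := h3
      _ ≤ q * (F.card * (Real.sqrt n * ε)) := by
        refine mul_le_mul_of_nonneg_left ?_ (Nat.cast_nonneg _)
        exact mul_le_mul_of_nonneg_right hcard' (by positivity)
      _ = q * (F.card * ε) * Real.sqrt n := by ring
      _ ≤ _ := mul_le_mul_of_nonneg_left h4 h5

theorem c2_bound {L : E n → E n → ℝ → ℝ} {κ K : ℝ} (hn : 0 < n) (hL : Growth L κ K)
    (h2 : ContDiff ℝ 2 (alpha L)) (c : E n)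
    (hpos : ∀ p, p ≠ 0 → 0 < fderiv ℝ (fderiv ℝ (alpha L)) c p p) :
    BoxBound L c (gradient (alpha L) c) := by
  obtain ⟨K', hK', hup⟩ := quad_upper h2 c
  obtain ⟨κ', p₀, hκ', hp₀, hlo⟩ := quad_lower h2 c hpos
  refine local_bound hn hL (κ' := κ') (K' := K') (p₀ := min p₀ 1) hκ' (lt_min hp₀ one_pos)
    (fun p hp => hlo p (hp.trans (min_le_left _ _))) (fun p hp => ?_)
  have := hup p (hp.trans (min_le_right _ _))
  linarith

end Pool.Agent.H99.EC
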