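import Pool.Agent.H99.EC.Def

/-!
# Module Walk: cutting out the cycles of a walk on a finite set modulo `ℤⁿ` (note 5670, (4))
Strong induction on `L`. If `L ≤ F.card`: every step contributes at most `C₀`. If `L > F.card`: among `y 0, ..., y F.card` two have the same `v`:
`y j = y i + zv z`, `i < j ≤ F.card`; the chain `l ↦ y (i + l)`, `k = j - i`, is closed, so `⟪θ, zv z⟫ + σ (j - i) ≤ 0`. Apply the induction hypothesis to
`l ↦ if l ≤ i then y l else y (l + (j - i)) - zv z` of length `L - (j - i)` (`zv_neg`).
-/

set_option autoImplicit false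

open MeasureTheory Filter
open scoped RealInnerProductSpace

namespace Pool.Agent.H99.EC

open Pool.Agent.H33.AM (E Tor pr IsPeriodic)
open Pool.Agent.H68.HD

variable {n : ℕ}

theorem walk {P : E n → E n → Prop} (hP : ∀ x y z, P x y → P (x + zv z) (y + zv z))
    (F : Finset (E n)) {θ : E n} {σ C₀ : ℝ} (hC0 : 0 ≤ C₀) (hC : ∀ x y, P x y → ⟪θ, y - x⟫ + σ ≤ C₀)
    (hloop : ∀ f k z, Cl f k z → k ≤ F.card → (∀ i < k, P (f i) (f (i + 1))) →
      ⟪θ, zv z⟫ + σ * k ≤ 0) (L : ℕ) (y : ℕ → E n)
    (hy : ∀ i ≤ L, ∃ v ∈ F, ∃ z, y i = v + zv z) (hyP : ∀ i < L, P (y i) (y (i + 1))) :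
    ⟪θ, y L - y 0⟫ + σ * L ≤ F.card * C₀ := by
  classical
  induction L using Nat.strong_induction_on generalizing y with
  | _ L ih =>
    rcases le_or_gt L F.card with hL | hL
    · have h1 : ∀ m ≤ L, ⟪θ, y m - y 0⟫ + σ * m ≤ m * C₀ := by
        intro m
        induction m with
        | zero => intro _; simp
        | succ m ihm =>
          intro hm
          have h2 := ihm (by omega)
          have h3 := hC _ _ (hyP m (by omega))
          have h4 : y (m + 1) - y 0 = (y m - y 0) + (y (m + 1) - y m) := by abel
          rw [h4, inner_add_right]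
          push_cast
          linarith
      have h2 := h1 L le_rfl
      have h3 : (L : ℝ) ≤ F.card := by exact_mod_cast hL
      nlinarith
    · -- pigeonhole
      have hex : ∀ i : ℕ, ∃ v, i ≤ F.card → v ∈ F ∧ ∃ z, y i = v + zv z := by
        intro i
        by_cases hi : i ≤ F.card
        · obtain ⟨v, hv, hz⟩ := hy i (by omega)
          exact ⟨v, fun _ => ⟨hv, hz⟩⟩
        · exact ⟨0, fun h => absurd h hi⟩
      choose v hv using hex
      obtain ⟨i, hi, j, hj, hij, hvij⟩ : ∃ i ∈ Finset.range (F.card + 1), ∃ j ∈ Finset.range (F.card + 1),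
          i ≠ j ∧ v i = v j := by
        apply Finset.exists_ne_map_eq_of_card_lt_of_maps_to (t := F)
        · rw [Finset.card_range]; omega
        · intro i hi
          exact (hv i (by have := Finset.mem_range.mp hi; omega)).1
      rw [Finset.mem_range] at hi hj
      -- the ordered version
      obtain ⟨i, j, hij, hj, z, hz⟩ : ∃ i j : ℕ, i < j ∧ j ≤ F.card ∧ ∃ z, y j = y i + zv z := by
        obtain ⟨zi, hzi⟩ := (hv i (by omega)).2
        obtain ⟨zj, hzj⟩ := (hv j (by omega)).2
        rcases lt_or_gt_of_ne hij with h | h
        · refine ⟨i, j, h, by omega, zj + -zi, ?_⟩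
          rw [zv_add, zv_neg, hzi, hzj, hvij]
          abel
        · refine ⟨j, i, h, by omega, zi + -zj, ?_⟩
          rw [zv_add, zv_neg, hzi, hzj, hvij]
          abel
      obtain ⟨k, rfl⟩ : ∃ k, j = i + k := ⟨j - i, by omega⟩
      have hk : 0 < k := by omega
      have hcl : Cl (fun l => y (i + l)) k z := ⟨hk, by simpa using hz⟩
      have h1 := hloop _ _ _ hcl (by omega) (fun l hl => hyP (i + l) (by omega))
      have hz' : ∀ x : E n, x - zv z = x + zv (-z) := by
        intro x; rw [zv_neg]; abel
      have h2 := ih (L - k) (by omega) (fun l => if l ≤ i then y l else y (l + k) - zv z) ?_ ?_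
      · have e1 : ¬ L - k ≤ i := by omega
        have e2 : L - k + k = L := by omega
        simp only [e1, if_false, e2, Nat.zero_le, if_true] at h2
        have e3 : ((L - k : ℕ) : ℝ) = (L : ℝ) - k := by
          rw [Nat.cast_sub (by omega)]
        rw [e3] at h2
        have e4 : y L - zv z - y 0 = (y L - y 0) - zv z := by abel
        rw [e4, inner_sub_right] at h2
        linarith
      · intro l hl
        by_cases h : l ≤ i
        · simp only [h, if_true]
          exact hy l (by omega)
        · simp only [h, if_false]
          obtain ⟨w, hw, zw, hzw⟩ := hy (l + k) (by omega)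
          refine ⟨w, hw, zw + -z, ?_⟩
          rw [zv_add, zv_neg, hzw]
          abel
      · intro l hl
        by_cases h : l + 1 ≤ i
        · have h' : l ≤ i := by omega
          simp only [h, h', if_true]
          exact hyP l (by omega)
        · by_cases h' : l ≤ i
          · have hli : l = i := by omega
            subst hli
            simp only [h, le_refl, if_true, if_false]
            have h3 := hP _ _ (-z) (hyP (l + k) (by omega))
            rw [← hz', ← hz', hz, add_sub_cancel_right] at h3
            have e5 : l + 1 + k = l + k + 1 := by omega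
            rw [e5]
            exact h3
          · simp only [h, h', if_false]
            have h3 := hP _ _ (-z) (hyP (l + k) (by omega))
            rw [← hz', ← hz'] at h3
            have e5 : l + 1 + k = l + k + 1 := by omega
            rw [e5]
            exact h3

end Pool.Agent.H99.EC
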