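import Pool.Agent.H99.EC.Def

/-!
# Module Cyc: the displacement of cheap closed chains (note 5670, (3))
`w = zv z - k • h`; for `‖p‖ ≤ p₀`: `⟪p, w⟫ ≤ k B ε² + k K' ‖p‖²`. `‖w‖ > 2 K' k p₀` is impossible (`p = (p₀/‖w‖) w`), so `p = w/(2 K' k)` gives `‖w‖² ≤ 4 K' B k² ε²`.
Compare `return_time` in H68/HD/Rot.lean.
-/

set_option autoImplicit false

open MeasureTheory Filter
open scoped RealInnerProductSpace

namespace Pool.Agent.H99.EC

open Pool.Agent.H33.AM (E Tor pr IsPeriodic)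
open Pool.Agent.H68.HD

variable {n : ℕ}

theorem cyc {h : E n} {K' p₀ : ℝ} (hp : 0 < p₀) (hK : 0 < K') {q : E n → ℝ}
    (hq : ∀ p, ‖p‖ ≤ p₀ → q p ≤ ⟪h, p⟫ + K' * ‖p‖ ^ 2) {B ε : ℝ} (hB : 0 ≤ B) (hε : 0 ≤ ε)
    (hBε : B * ε ^ 2 < K' * p₀ ^ 2) {k : ℕ} (hk : 0 < k) {z : Fin n → ℤ}
    (hx : ∀ p, ⟪p, zv z⟫ - k * q p ≤ k * (B * ε ^ 2)) :
    ‖zv z - (k : ℝ) • h‖ ≤ 2 * Real.sqrt (K' * B) * (k * ε) := by
  set w : E n := zv z - (k : ℝ) • h with hw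
  have hkp : (0 : ℝ) < k := by exact_mod_cast hk
  have key : ∀ p : E n, ‖p‖ ≤ p₀ → ⟪p, w⟫ ≤ k * (B * ε ^ 2) + k * (K' * ‖p‖ ^ 2) := by
    intro p hp1
    have h1 := hx p
    have h2 := hq p hp1
    have h3 : (k : ℝ) * q p ≤ k * (⟪h, p⟫ + K' * ‖p‖ ^ 2) := mul_le_mul_of_nonneg_left h2 hkp.le
    have h4 : ⟪p, w⟫ = ⟪p, zv z⟫ - k * ⟪h, p⟫ := by
      rw [hw, inner_sub_right, real_inner_smul_right, real_inner_comm h p]
    rw [h4]
    nlinarith [h1, h3]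
  have hr0 : 0 ≤ ‖w‖ := norm_nonneg w
  rcases hr0.eq_or_lt with hr | hr
  · rw [← hr]
    positivity
  · have hww : ⟪w, w⟫ = ‖w‖ ^ 2 := real_inner_self_eq_norm_sq w
    have hle : ‖w‖ ≤ 2 * K' * k * p₀ := by
      by_contra hcon
      push Not at hcon
      have hn : ‖(p₀ / ‖w‖) • w‖ = p₀ := by
        rw [norm_smul, Real.norm_eq_abs, abs_of_nonneg (by positivity)]
        field_simp
      have h1 := key ((p₀ / ‖w‖) • w) hn.le
      rw [hn, real_inner_smul_left, hww] at h1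
      have h2 : p₀ / ‖w‖ * ‖w‖ ^ 2 = p₀ * ‖w‖ := by field_simp
      rw [h2] at h1
      have h3 : (k : ℝ) * (B * ε ^ 2) < k * (K' * p₀ ^ 2) := mul_lt_mul_of_pos_left hBε hkp
      have h4 : p₀ * (2 * K' * k * p₀) < p₀ * ‖w‖ := mul_lt_mul_of_pos_left hcon hp
      nlinarith [h1, h3, h4]
    have hn : ‖(1 / (2 * K' * k)) • w‖ = ‖w‖ / (2 * K' * k) := by
      rw [norm_smul, Real.norm_eq_abs, abs_of_nonneg (by positivity)]
      ring
    have h1 := key ((1 / (2 * K' * k)) • w) (by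
      rw [hn, div_le_iff₀ (by positivity)]
      linarith)
    rw [hn, real_inner_smul_left, hww] at h1
    have h2 : (k : ℝ) * (K' * (‖w‖ / (2 * K' * k)) ^ 2) = ‖w‖ ^ 2 / (4 * K' * k) := by
      field_simp
      ring
    have h3 : 1 / (2 * K' * k) * ‖w‖ ^ 2 = 2 * (‖w‖ ^ 2 / (4 * K' * k)) := by
      field_simp
      ring
    rw [h2, h3] at h1
    have h4 : ‖w‖ ^ 2 / (4 * K' * k) ≤ k * (B * ε ^ 2) := by linarith
    rw [div_le_iff₀ (by positivity)] at h4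
    have h5 : (2 * Real.sqrt (K' * B) * (k * ε)) ^ 2 = 4 * (K' * B) * (k * ε) ^ 2 := by
      rw [mul_pow, mul_pow, Real.sq_sqrt (by positivity)]
      ring
    refine abs_le_of_sq_le_sq' (a := ‖w‖) ?_ (by positivity) |>.2
    rw [h5]
    nlinarith [h4]

end Pool.Agent.H99.EC
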