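import Pool.Agent.H99.EC.Def

/-!
# Module Det: small integer vectors (note 5670, (7))
Let `T : Set (Fin (n + 1) → ℝ)` be the set of the vectors `Fin.cons (k : ℝ) (fun i => (z i : ℝ))` with `0 < k ≤ M`, `‖zv z - k • h‖ ≤ ρ`. If its span is not `⊤`, there is a nonzero
linear functional killing `T`: `v ↦ ∑ t i v i` (`Submodule.exists_le_ker_of_lt_top` or similar); `σ = t 0`, `θ = (t 1, ..., t n)`; `θ ≠ 0`, because `σ k = 0`, `k ≥ 1` otherwise, unless `T` is empty
(then take any `θ ≠ 0`, `σ = 0`; `0 < n`). If the span is `⊤`, there are `n + 1` independent vectors in `T` (`exists_linearIndependent`), the determinant of their matrix `A`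
is a nonzero integer, so `1 ≤ |det A|`; `A = B * U` (or column operations) with `U` unipotent upper triangular, `B` with the rows `(k_j, z_j - k_j h)`, so `|det A| = |det B| ≤ ∑_σ ∏ |B|`,
every product has one factor `≤ M` and `n` factors `≤ ρ` (`Matrix.det_apply`, `Finset.abs_sum_le_sum_abs`; `|x i| ≤ ‖x‖`).
-/

set_option autoImplicit false

open MeasureTheory Filter
open scoped RealInnerProductSpace

namespace Pool.Agent.H99.EC

open Pool.Agent.H33.AM (E Tor pr IsPeriodic)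
open Pool.Agent.H68.HD

variable {n : ℕ}

private theorem det_prod_le {M : ℕ} {ρ : ℝ} (B : Matrix (Fin (n + 1)) (Fin (n + 1)) ℝ)
    (h0 : ∀ j, |B 0 j| ≤ M) (h1 : ∀ (i : Fin n) j, |B i.succ j| ≤ ρ) :
    |B.det| ≤ ((n + 1).factorial : ℝ) * (M * ρ ^ n) := by
  have hB : ∀ i j, |B i j| ≤ (if i = 0 then (M : ℝ) else ρ) := by
    intro i j
    refine Fin.cases ?_ (fun i => ?_) i
    · simpa using h0 j
    · simpa [Fin.succ_ne_zero] using h1 i j
  rw [Matrix.det_apply]
  refine le_trans (Finset.abs_sum_le_sum_abs _ _) ?_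
  have h2 : ∀ σ ∈ (Finset.univ : Finset (Equiv.Perm (Fin (n + 1)))),
      |Equiv.Perm.sign σ • ∏ i, B (σ i) i| ≤ (M : ℝ) * ρ ^ n := by
    intro σ _
    have e1 : |Equiv.Perm.sign σ • ∏ i, B (σ i) i| = ∏ i, |B (σ i) i| := by
      rw [← Finset.abs_prod]
      rcases Int.units_eq_one_or (Equiv.Perm.sign σ) with h | h
      · rw [h, one_smul]
      · rw [h, Units.smul_def, Units.val_neg, Units.val_one, neg_smul, one_smul, abs_neg]
    rw [e1]
    calc ∏ i, |B (σ i) i| ≤ ∏ i, (if σ i = 0 then (M : ℝ) else ρ) :=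
          Finset.prod_le_prod (fun i _ => abs_nonneg _) (fun i _ => hB _ _)
      _ = ∏ i, (if i = 0 then (M : ℝ) else ρ) :=
          Equiv.prod_comp σ (fun i => if i = 0 then (M : ℝ) else ρ)
      _ = (M : ℝ) * ρ ^ n := by
          rw [Fin.prod_univ_succ]
          simp [Fin.succ_ne_zero]
  refine le_trans (Finset.sum_le_card_nsmul _ _ _ h2) (le_of_eq ?_)
  rw [Finset.card_univ, Fintype.card_perm, Fintype.card_fin, nsmul_eq_mul]

private theorem det_int_ge (A : Matrix (Fin (n + 1)) (Fin (n + 1)) ℤ)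
    (h : (A.map (Int.cast : ℤ → ℝ)).det ≠ 0) : 1 ≤ |(A.map (Int.cast : ℤ → ℝ)).det| := by
  have e : (A.map (Int.cast : ℤ → ℝ)).det = ((A.det : ℤ) : ℝ) :=
    ((Int.castRingHom ℝ).map_det A).symm
  rw [e] at h ⊢
  have h1 : A.det ≠ 0 := by exact_mod_cast h
  have h2 := Int.one_le_abs h1
  exact_mod_cast h2

theorem det_dich {M : ℕ} (hn : 0 < n) (h : E n) {ρ : ℝ} (hρ : 0 ≤ ρ) :
    (∃ (θ : E n) (σ : ℝ), θ ≠ 0 ∧ ∀ (k : ℕ) (z : Fin n → ℤ), 0 < k → k ≤ M →
      ‖zv z - (k : ℝ) • h‖ ≤ ρ → ⟪θ, zv z⟫ + σ * k = 0) ∨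
    1 ≤ ((n + 1).factorial : ℝ) * (M * ρ ^ n) := by
  classical
  set T : Set (Fin (n + 1) → ℝ) := {v | ∃ (k : ℕ) (z : Fin n → ℤ), 0 < k ∧ k ≤ M ∧
    ‖zv z - (k : ℝ) • h‖ ≤ ρ ∧ v = Fin.cons (k : ℝ) (fun i => (z i : ℝ))} with hT
  rcases T.eq_empty_or_nonempty with hemp | hne
  · left
    refine ⟨EuclideanSpace.single ⟨0, hn⟩ (1 : ℝ), 0, ?_, ?_⟩
    · intro h0
      have := congrArg (fun v : E n => v ⟨0, hn⟩) h0
      simp at this
    · intro k z hk hkM hz
      exfalso
      have : (Fin.cons (k : ℝ) (fun i => (z i : ℝ)) : Fin (n + 1) → ℝ) ∈ T := ⟨k, z, hk, hkM, hz, rfl⟩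
      rw [hemp] at this
      exact this
  by_cases hsp : Submodule.span ℝ T = ⊤
  · right
    obtain ⟨b, hbT, hbs, hbl⟩ := exists_linearIndependent ℝ T
    rw [hsp] at hbs
    have hb2 : ⊤ ≤ Submodule.span ℝ (Set.range ((↑) : b → (Fin (n + 1) → ℝ))) := by
      rw [Subtype.range_coe, hbs]
    let bas := Module.Basis.mk hbl hb2
    let e : b ≃ Fin (n + 1) := bas.indexEquiv (Pi.basisFun ℝ (Fin (n + 1)))
    have hw : LinearIndependent ℝ (fun j : Fin (n + 1) => ((e.symm j : b) : Fin (n + 1) → ℝ)) :=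
      hbl.comp e.symm e.symm.injective
    have hwT : ∀ j, ∃ (k : ℕ) (z : Fin n → ℤ), 0 < k ∧ k ≤ M ∧ ‖zv z - (k : ℝ) • h‖ ≤ ρ ∧
        ((e.symm j : b) : Fin (n + 1) → ℝ) = Fin.cons (k : ℝ) (fun i => (z i : ℝ)) :=
      fun j => hbT (e.symm j).2
    choose k z hk hkM hz hkz using hwT
    let A : Matrix (Fin (n + 1)) (Fin (n + 1)) ℤ := fun i j =>
      (Fin.cons (k j : ℤ) (z j) : Fin (n + 1) → ℤ) i
    have hA : A.map (Int.cast : ℤ → ℝ) =
        (Matrix.of (fun j : Fin (n + 1) => ((e.symm j : b) : Fin (n + 1) → ℝ))).transpose := by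
      ext i j
      rw [Matrix.map_apply, Matrix.transpose_apply, Matrix.of_apply, hkz j]
      refine Fin.cases ?_ (fun i => ?_) i
      · simp [A]
      · simp [A]
    have hdet : (A.map (Int.cast : ℤ → ℝ)).det ≠ 0 := by
      rw [hA, Matrix.det_transpose]
      have h3 : IsUnit (Matrix.of (fun j : Fin (n + 1) => ((e.symm j : b) : Fin (n + 1) → ℝ))) :=
        Matrix.linearIndependent_rows_iff_isUnit.mp hw
      exact ((Matrix.isUnit_iff_isUnit_det _).mp h3).ne_zero
    have h1 := det_int_ge A hdet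
    let B : Matrix (Fin (n + 1)) (Fin (n + 1)) ℝ := fun i j =>
      (A.map (Int.cast : ℤ → ℝ)) i j +
        (Fin.cons 0 (fun i => -h i) : Fin (n + 1) → ℝ) i * (A.map (Int.cast : ℤ → ℝ)) 0 j
    have hBA : B.det = (A.map (Int.cast : ℤ → ℝ)).det :=
      Matrix.det_eq_of_forall_row_eq_smul_add_const
        (Fin.cons 0 (fun i => -h i) : Fin (n + 1) → ℝ) 0 (by simp) (fun i j => rfl)
    rw [← hBA] at h1
    refine le_trans h1 (det_prod_le B ?_ ?_)
    · intro j
      have e1 : B 0 j = (k j : ℝ) := by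
        simp [B, A]
      rw [e1, abs_of_nonneg (Nat.cast_nonneg _)]
      exact_mod_cast hkM j
    · intro i j
      have e1 : B i.succ j = (zv (z j) - (k j : ℝ) • h) i := by
        simp [B, A, zv]
        ring
      rw [e1, ← Real.norm_eq_abs]
      exact le_trans (PiLp.norm_apply_le _ i) (hz j)
  · left
    obtain ⟨f, hf0, hf⟩ := Submodule.exists_le_ker_of_lt_top _ (lt_top_iff_ne_top.mpr hsp)
    set t : Fin (n + 1) → ℝ := fun i => f (fun j => if i = j then 1 else 0) with ht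
    have hft : ∀ v : Fin (n + 1) → ℝ, f v = ∑ i, v i * t i := by
      intro v
      rw [LinearMap.pi_apply_eq_sum_univ f v]
      simp only [smul_eq_mul, ht]
    have hfT : ∀ v ∈ T, f v = 0 := fun v hv => hf (Submodule.subset_span hv)
    refine ⟨WithLp.toLp 2 (fun i => t i.succ), t 0, ?_, ?_⟩
    · intro h0
      have h1 : ∀ i : Fin n, t i.succ = 0 := fun i => congrArg (fun v : E n => v i) h0
      obtain ⟨v, hv⟩ := hne
      have h2 := hfT v hv
      obtain ⟨k, z, hk, -, -, rfl⟩ := hv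
      rw [hft, Fin.sum_univ_succ] at h2
      simp only [h1, mul_zero, Finset.sum_const_zero, add_zero, Fin.cons_zero] at h2
      have hk' : (k : ℝ) ≠ 0 := by exact_mod_cast hk.ne'
      have h3 : t 0 = 0 := (mul_eq_zero.mp h2).resolve_left hk'
      apply hf0
      refine LinearMap.ext fun v => ?_
      rw [hft, LinearMap.zero_apply, Fin.sum_univ_succ]
      simp [h1, h3]
    · intro k z hk hkM hz
      have h2 := hfT (Fin.cons (k : ℝ) (fun i => (z i : ℝ))) ⟨k, z, hk, hkM, hz, rfl⟩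
      rw [hft, Fin.sum_univ_succ] at h2
      simp only [Fin.cons_zero, Fin.cons_succ] at h2
      have e1 : ⟪(WithLp.toLp 2 (fun i => t i.succ) : E n), zv z⟫ = ∑ i, (z i : ℝ) * t i.succ := by
        rw [PiLp.inner_apply]
        refine Finset.sum_congr rfl fun i _ => ?_
        simp [zv]
      rw [e1]
      linarith

end Pool.Agent.H99.EC
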