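import Pool.Agent.H99.EC.Drift
import Pool.Agent.H99.EC.Cyc
import Pool.Agent.H99.EC.Ech
import Pool.Agent.H99.EC.Rep
import Pool.Agent.H99.EC.Det
import Pool.Agent.H68.HD.U
import Pool.Agent.H68.HD.S2

/-!
# Module Core: no functional kills the small vectors (note 5670, (6), (7))
-/

set_option autoImplicit false

open MeasureTheory Filter
open scoped RealInnerProductSpace

namespace Pool.Agent.H99.EC

open Pool.Agent.H33.AM (E Tor pr IsPeriodic)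
open Pool.Agent.H68.HD

variable {n : ℕ}

/-- The inequality (T) of note 5571. -/
private theorem co_T {L : E n → E n → ℝ → ℝ} {κ K : ℝ} (hL : Growth L κ K) (c : E n)
    {f : ℕ → E n} {k : ℕ} {z : Fin n → ℤ} (hf : Cl f k z) (p : E n) :
    ⟪p, zv z⟫ - k * (alpha L (c + p) - alpha L c) ≤ cost (Sp L c (alpha L c)) f k := by
  have h1 := n1 hL (c + p) f k z hf
  rw [cost_shift hL c p (alpha L c), hf.2, add_sub_cancel_left] at h1
  linarith

theorem core {L : E n → E n → ℝ → ℝ} {κ K : ℝ} (hL : Growth L κ K) {c h : E n}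
    {κ' K' p₀ : ℝ} (hκ : 0 < κ') (hp₀ : 0 < p₀)
    (hlo : ∀ p, ‖p‖ ≤ p₀ → κ' * ‖p‖ ^ 2 ≤ alpha L (c + p) - alpha L c - ⟪h, p⟫)
    (hup : ∀ p, ‖p‖ ≤ p₀ → alpha L (c + p) - alpha L c - ⟪h, p⟫ ≤ K' * ‖p‖ ^ 2) (hK : 0 < K') :
    ∃ C₂ ε₀ : ℝ, 0 < C₂ ∧ 0 < ε₀ ∧ ∀ ε : ℝ, 0 < ε → ε ≤ ε₀ → ∀ F : Finset (E n),
      (∀ x, Aub (Sp L c (alpha L c)) x → ∃ v ∈ F, ∃ z, ‖x - (v + zv z)‖ ≤ ε) →
      ∀ (θ : E n) (σ : ℝ), θ ≠ 0 → ¬ ∀ (k : ℕ) (z : Fin n → ℤ), 0 < k → k ≤ F.card →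
        ‖zv z - (k : ℝ) • h‖ ≤ C₂ * (F.card * ε) → ⟪θ, zv z⟫ + σ * k = 0 := by
  obtain ⟨a, b, κ₁, K₁, hS⟩ := pot hL c (alpha L c)
  have h1 := n1 hL c
  obtain ⟨u, M, Λ, hu⟩ := exists_sub hS h1
  obtain ⟨C', ρ₀, hC', hρ₀, hedge⟩ := edge hS hu
  obtain ⟨ε₀, hε₀⟩ : ∃ ε₀ : ℝ, ε₀ = min (min ρ₀ 1) (min (1 / (C' + 1)) (K' * p₀ ^ 2 / (2 * C'))) :=
    ⟨_, rfl⟩
  have hε₀0 : 0 < ε₀ := by
    rw [hε₀]
    positivity
  have e1 : ε₀ ≤ ρ₀ := by
    rw [hε₀]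
    exact (min_le_left _ _).trans (min_le_left _ _)
  have e2 : ε₀ ≤ 1 := by
    rw [hε₀]
    exact (min_le_left _ _).trans (min_le_right _ _)
  have e3 : ε₀ ≤ 1 / (C' + 1) := by
    rw [hε₀]
    exact (min_le_right _ _).trans (min_le_left _ _)
  have e4 : ε₀ ≤ K' * p₀ ^ 2 / (2 * C') := by
    rw [hε₀]
    exact (min_le_right _ _).trans (min_le_right _ _)
  refine ⟨2 * Real.sqrt (K' * C'), ε₀, by positivity, hε₀0, fun ε hε hεε₀ F hF => ?_⟩
  have hsq : C' * ε ^ 2 ≤ C' * ε := by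
    refine mul_le_mul_of_nonneg_left ?_ hC'.le
    nlinarith
  have hε1 : C' * ε ^ 2 ≤ 1 := by
    have h2 : C' * ε ≤ C' * (1 / (C' + 1)) := mul_le_mul_of_nonneg_left (hεε₀.trans e3) hC'.le
    have h3 : C' * (1 / (C' + 1)) ≤ 1 := by
      rw [mul_one_div, div_le_one (by linarith)]
      linarith
    linarith
  have hε2 : C' * ε ^ 2 < K' * p₀ ^ 2 := by
    have h2 : C' * ε ≤ C' * (K' * p₀ ^ 2 / (2 * C')) :=
      mul_le_mul_of_nonneg_left (hεε₀.trans e4) hC'.le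
    have h3 : C' * (K' * p₀ ^ 2 / (2 * C')) = K' * p₀ ^ 2 / 2 := by
      field_simp
    have h4 : 0 < K' * p₀ ^ 2 := by positivity
    linarith
  -- the main case
  have main : ∀ (θ : E n) (σ : ℝ), θ ≠ 0 → 0 ≤ σ + ⟪θ, h⟫ →
      (∀ (k : ℕ) (z : Fin n → ℤ), 0 < k → k ≤ F.card →
        ‖zv z - (k : ℝ) • h‖ ≤ 2 * Real.sqrt (K' * C') * (F.card * ε) → ⟪θ, zv z⟫ + σ * k = 0) →
      False := by
    intro θ σ hθ hσ hkill
    have hθ0 : 0 < ‖θ‖ := norm_pos_iff.2 hθ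
    obtain ⟨C, hC, hdr⟩ := drift hS hu hC' hedge hε (hεε₀.trans e1) hε1 F hF (θ := θ) (σ := σ)
      (fun f k z hf hk hfe => by
        have hk0 : (0 : ℝ) < k := by exact_mod_cast hf.1
        have h2 : cost (Sp L c (alpha L c)) f k ≤ k * (C' * ε ^ 2) := by
          rw [cost_eq_DS hu hf]
          calc DS (Sp L c (alpha L c)) u f k ≤ ∑ _i ∈ Finset.range k, C' * ε ^ 2 :=
                Finset.sum_le_sum fun i hi => hfe i (Finset.mem_range.1 hi)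
            _ = k * (C' * ε ^ 2) := by
                rw [Finset.sum_const, Finset.card_range, nsmul_eq_mul]
        have h3 := cyc hp₀ hK (q := fun p => alpha L (c + p) - alpha L c) (h := h)
          (fun p hp => by linarith [hup p hp]) hC'.le hε.le hε2 hf.1 (z := z)
          (fun p => (co_T hL c hf p).trans h2)
        refine (hkill k z hf.1 hk (h3.trans ?_)).le
        refine mul_le_mul_of_nonneg_left (mul_le_mul_of_nonneg_right ?_ hε.le) (by positivity)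
        exact_mod_cast hk)
    have hrep : ∀ f k z, Cl f k z → ⟪θ, zv z⟫ + σ * k ≤ C * cost (Sp L c (alpha L c)) f k :=
      fun f k z hf => rep hS hu hC hdr hf
    obtain ⟨A, hA⟩ : ∃ A : ℝ, A = C * (κ' + 4 * K') := ⟨_, rfl⟩
    have hA0 : 0 ≤ A := by
      rw [hA]
      positivity
    obtain ⟨s, hs⟩ : ∃ s : ℝ, s = min (p₀ / (2 * ‖θ‖)) (κ' / (4 * (A + 1))) := ⟨_, rfl⟩
    have hs0 : 0 < s := by
      rw [hs]
      positivity
    have hs1 : 2 * (s * ‖θ‖) ≤ p₀ := by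
      have h2 : s ≤ p₀ / (2 * ‖θ‖) := by
        rw [hs]
        exact min_le_left _ _
      rw [le_div_iff₀ (by positivity)] at h2
      linarith
    have hs2 : A * s < κ' / 2 := by
      have h2 : s ≤ κ' / (4 * (A + 1)) := by
        rw [hs]
        exact min_le_right _ _
      rw [le_div_iff₀ (by positivity)] at h2
      nlinarith
    have hnorm : ‖s • θ‖ = s * ‖θ‖ := by rw [norm_smul, Real.norm_of_nonneg hs0.le]
    obtain ⟨f, k, z, hf, hc1, hc2⟩ := ech hL hκ hlo hup (s • θ) (smul_ne_zero hs0.ne' hθ)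
      (by rw [hnorm]; exact hs1)
    have hk0 : (0 : ℝ) < k := by exact_mod_cast hf.1
    rw [hnorm] at hc1 hc2
    rw [real_inner_smul_left, inner_sub_right, inner_smul_right] at hc2
    have h4 := hrep f k z hf
    have h5 : C * cost (Sp L c (alpha L c)) f k ≤ C * (k * ((κ' + 4 * K') * (s * ‖θ‖) ^ 2)) :=
      mul_le_mul_of_nonneg_left hc1 hC
    have h6 : 0 ≤ (σ + ⟪θ, h⟫) * k := mul_nonneg hσ hk0.le
    have h7 : ⟪θ, zv z⟫ - k * ⟪θ, h⟫ ≤ C * (k * ((κ' + 4 * K') * (s * ‖θ‖) ^ 2)) := by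
      nlinarith
    have h8 : k * (κ' / 2 * (s * ‖θ‖) ^ 2) ≤ s * (C * (k * ((κ' + 4 * K') * (s * ‖θ‖) ^ 2))) :=
      hc2.trans (mul_le_mul_of_nonneg_left h7 hs0.le)
    have h9 : 0 < k * (s * ‖θ‖) ^ 2 := by positivity
    have h10 : κ' / 2 * (k * (s * ‖θ‖) ^ 2) ≤ A * s * (k * (s * ‖θ‖) ^ 2) := by
      rw [hA]
      calc κ' / 2 * (k * (s * ‖θ‖) ^ 2) = k * (κ' / 2 * (s * ‖θ‖) ^ 2) := by ring
        _ ≤ _ := h8
        _ = _ := by ring
    have h11 := le_of_mul_le_mul_right h10 h9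
    linarith
  intro θ σ hθ hkill
  rcases le_total 0 (σ + ⟪θ, h⟫) with hσ | hσ
  · exact main θ σ hθ hσ hkill
  · refine main (-θ) (-σ) (neg_ne_zero.2 hθ) (by rw [inner_neg_left]; linarith) ?_
    intro k z hk hkF hkz
    have h2 := hkill k z hk hkF hkz
    rw [inner_neg_left]
    linarith

/-- The two lower bounds for the coverings of the set of Aubry points. -/
theorem cover_ge {L : E n → E n → ℝ → ℝ} {κ K : ℝ} (hL : Growth L κ K) (hn : 0 < n) {c h : E n}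
    {κ' K' p₀ : ℝ} (hκ : 0 < κ') (hp₀ : 0 < p₀)
    (hlo : ∀ p, ‖p‖ ≤ p₀ → κ' * ‖p‖ ^ 2 ≤ alpha L (c + p) - alpha L c - ⟪h, p⟫)
    (hup : ∀ p, ‖p‖ ≤ p₀ → alpha L (c + p) - alpha L c - ⟪h, p⟫ ≤ K' * ‖p‖ ^ 2) (hK : 0 < K') :
    ∃ c₁ ε₀ : ℝ, 0 < c₁ ∧ 0 < ε₀ ∧ ∀ ε : ℝ, 0 < ε → ε ≤ ε₀ → ∀ F : Finset (E n),
      (∀ x, Aub (Sp L c (alpha L c)) x → ∃ v ∈ F, ∃ z, ‖x - (v + zv z)‖ ≤ ε) →
      c₁ ≤ (F.card : ℝ) ^ (n + 1) * ε ^ n ∧
      ∀ (q : ℕ) (z₀ : Fin n → ℤ), 0 < q → zv z₀ = (q : ℝ) • h → c₁ ≤ q * (F.card * ε) := by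
  obtain ⟨C₂, ε₀, hC₂, hε₀, hcore⟩ := core hL hκ hp₀ hlo hup hK
  obtain ⟨c₁, hc₁⟩ : ∃ c₁ : ℝ, c₁ = min (1 / (((n + 1).factorial : ℝ) * C₂ ^ n)) (1 / C₂) :=
    ⟨_, rfl⟩
  have hfac : (0 : ℝ) < ((n + 1).factorial : ℝ) := by exact_mod_cast Nat.factorial_pos _
  refine ⟨c₁, ε₀, by rw [hc₁]; positivity, hε₀, fun ε hε hεε₀ F hF => ⟨?_, ?_⟩⟩
  · rcases det_dich (M := F.card) hn h (ρ := C₂ * (F.card * ε)) (by positivity) with hd | hd
    · obtain ⟨θ, σ, hθ, hk⟩ := hd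
      exact absurd hk (hcore ε hε hεε₀ F hF θ σ hθ)
    · have h0 : c₁ ≤ 1 / (((n + 1).factorial : ℝ) * C₂ ^ n) := by
        rw [hc₁]
        exact min_le_left _ _
      refine h0.trans ?_
      rw [div_le_iff₀ (by positivity)]
      calc (1 : ℝ) ≤ ((n + 1).factorial : ℝ) * (F.card * (C₂ * (F.card * ε)) ^ n) := hd
        _ = (F.card : ℝ) ^ (n + 1) * ε ^ n * (((n + 1).factorial : ℝ) * C₂ ^ n) := by
          rw [mul_pow, mul_pow]
          ring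
  · intro q z₀ hq hz₀
    have hq0 : (0 : ℝ) < q := by exact_mod_cast hq
    by_contra hcon
    push Not at hcon
    have h1 : q * (C₂ * (F.card * ε)) < 1 := by
      have h2 : c₁ ≤ 1 / C₂ := by
        rw [hc₁]
        exact min_le_right _ _
      have h3 := hcon.trans_le h2
      rw [lt_div_iff₀ hC₂] at h3
      linarith
    refine hcore ε hε hεε₀ F hF (EuclideanSpace.single ⟨0, hn⟩ (1 : ℝ))
      (-⟪EuclideanSpace.single ⟨0, hn⟩ (1 : ℝ), h⟫) ?_ ?_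
    · intro h2
      have h3 := congrArg (fun v : E n => v ⟨0, hn⟩) h2
      simp at h3
    · intro k z hk hkF hkz
      have h4 : zv z - (k : ℝ) • h = 0 := by
        ext i
        have h5 : |(zv z - (k : ℝ) • h) i| ≤ C₂ * (F.card * ε) := by
          refine le_trans ?_ hkz
          exact PiLp.norm_apply_le (zv z - (k : ℝ) • h) i
        have h6 : (q : ℝ) * (zv z - (k : ℝ) • h) i = ((q * z i - k * z₀ i : ℤ) : ℝ) := by
          have h7 := congrArg (fun v : E n => v i) hz₀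
          simp only [zv, PiLp.smul_apply, smul_eq_mul, PiLp.sub_apply] at h7 ⊢
          push_cast
          rw [h7]
          ring
        have h8 : |((q * z i - k * z₀ i : ℤ) : ℝ)| < 1 := by
          rw [← h6, abs_mul, abs_of_pos hq0]
          exact (mul_le_mul_of_nonneg_left h5 hq0.le).trans_lt h1
        have h9 : q * z i - k * z₀ i = 0 := by
          rw [← Int.abs_lt_one_iff]
          exact_mod_cast h8
        rw [h9, Int.cast_zero] at h6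
        rcases mul_eq_zero.1 h6 with h10 | h10
        · exact absurd h10 hq0.ne'
        · rw [h10]
          rfl
      have h11 : zv z = (k : ℝ) • h := sub_eq_zero.1 h4
      rw [h11, inner_smul_right]
      ring

end Pool.Agent.H99.EC
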