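import Pool.Agent.H68.HD.D2

/-!
# Project EC (note 5670): a lower bound for the box dimension of every Aubry set. Definitions.
-/

set_option autoImplicit false

open MeasureTheory Filter
open scoped RealInnerProductSpace

namespace Pool.Agent.H99.EC

open Pool.Agent.H33.AM (E Tor pr IsPeriodic)
open Pool.Agent.H68.HD

variable {n : ℕ}

/-- The defect of the step from `x` to `y`. -/
def D (S : E n → E n → ℝ) (u : E n → ℝ) (x y : E n) : ℝ := S x y - u y + u x

/-- The sum of the defects of the first `N` steps. -/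
def DS (S : E n → E n → ℝ) (u : E n → ℝ) (g : ℕ → E n) (N : ℕ) : ℝ :=
  ∑ i ∈ Finset.range N, D S u (g i) (g (i + 1))

/-- `x` has distance at least `ε` from all Aubry points. -/
def Far (S : E n → E n → ℝ) (ε : ℝ) (x : E n) : Prop := ∀ a, Aub S a → ε ≤ ‖x - a‖

theorem D_nonneg {S : E n → E n → ℝ} {u : E n → ℝ} {M Λ : ℝ} (hu : Sub S u M Λ) (x y : E n) :
    0 ≤ D S u x y := by
  have := hu.sub x y
  unfold D
  linarith

theorem D_per {S : E n → E n → ℝ} {a b κ K : ℝ} (hS : Pot S a b κ K) {u : E n → ℝ} {M Λ : ℝ}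
    (hu : Sub S u M Λ) (x y : E n) (z : Fin n → ℤ) :
    D S u (x + zv z) (y + zv z) = D S u x y := by
  unfold D
  rw [hS.per, hu.per, hu.per]

theorem DS_nonneg {S : E n → E n → ℝ} {u : E n → ℝ} {M Λ : ℝ} (hu : Sub S u M Λ) (g : ℕ → E n)
    (N : ℕ) : 0 ≤ DS S u g N := Finset.sum_nonneg fun _ _ => D_nonneg hu _ _

theorem DS_mono {S : E n → E n → ℝ} {u : E n → ℝ} {M Λ : ℝ} (hu : Sub S u M Λ) (g : ℕ → E n)
    {N N' : ℕ} (h : N ≤ N') : DS S u g N ≤ DS S u g N' :=
  Finset.sum_le_sum_of_subset_of_nonneg (Finset.range_mono h) fun _ _ _ => D_nonneg hu _ _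

theorem cost_eq_DS {S : E n → E n → ℝ} {u : E n → ℝ} {M Λ : ℝ} (hu : Sub S u M Λ) {f : ℕ → E n}
    {k : ℕ} {z : Fin n → ℤ} (hf : Cl f k z) : cost S f k = DS S u f k := closed_cost hu hf

end Pool.Agent.H99.EC
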