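import Pool.Agent.H99.EC.Def

/-!
# Module Edge: moving the points of an almost calibrated chain (note 5670, (2))
Let `Cs = a + b (1 + 2 M)`, (`M ≥ 0`), `C' = 10 + 24 Cs + 1`, `ρ₀` with `2 ρ₀ ≤ 1`, `C' ρ₀² ≤ 1`. For `D S u x y ≤ 1`, `D S u y z ≤ 1`, `‖e‖ ≤ 1` let
`φ e = D x (y + e) + D (y + e) z = S x (y + e) + S (y + e) z - u z + u x ≥ 0`. By `hS.scr`, `hS.scl` and `S ≤ 1 + 2 M`:
`φ e + φ (-e) - 2 φ 0 ≤ 2 Cs ‖e‖²`, so `φ e ≤ 2 φ 0 + 2 Cs ‖e‖²`. Apply it to `x₀, x₁, x₂` and `e₁`: `D (x₁ + e₁) x₂ ≤ 4 ε² + 8 Cs ε²`; then to `x₁ + e₁, x₂, x₃`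
and `e₂`.
-/

set_option autoImplicit false

open MeasureTheory Filter
open scoped RealInnerProductSpace

namespace Pool.Agent.H99.EC

open Pool.Agent.H33.AM (E Tor pr IsPeriodic)
open Pool.Agent.H68.HD

variable {n : ℕ}

private theorem edge_one {S : E n → E n → ℝ} {a b κ K : ℝ} (hS : Pot S a b κ K) {u : E n → ℝ}
    {M Λ : ℝ} (hu : Sub S u M Λ) {x y z e : E n} (h1 : D S u x y ≤ 1) (h2 : D S u y z ≤ 1)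
    (he : ‖e‖ ≤ 1) :
    D S u x (y + e) + D S u (y + e) z ≤
      2 * (D S u x y + D S u y z) + 2 * (a + b * (1 + 2 * M)) * ‖e‖ ^ 2 := by
  have h3 := hS.scr x y e he
  have h4 := hS.scl y z e he
  have h5 : 0 ≤ D S u x (y - e) := D_nonneg hu _ _
  have h6 : 0 ≤ D S u (y - e) z := D_nonneg hu _ _
  have ux := abs_le.1 (hu.bd x)
  have uy := abs_le.1 (hu.bd y)
  have uz := abs_le.1 (hu.bd z)
  have h7 : b * S x y ≤ b * (1 + 2 * M) := by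
    refine mul_le_mul_of_nonneg_left ?_ hS.hb
    unfold D at h1
    linarith
  have h8 : b * S y z ≤ b * (1 + 2 * M) := by
    refine mul_le_mul_of_nonneg_left ?_ hS.hb
    unfold D at h2
    linarith
  have h9 : (a + b * S x y) * ‖e‖ ^ 2 ≤ (a + b * (1 + 2 * M)) * ‖e‖ ^ 2 := by
    gcongr
  have h10 : (a + b * S y z) * ‖e‖ ^ 2 ≤ (a + b * (1 + 2 * M)) * ‖e‖ ^ 2 := by
    gcongr
  unfold D at *
  linarith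

theorem edge {S : E n → E n → ℝ} {a b κ K : ℝ} (hS : Pot S a b κ K) {u : E n → ℝ} {M Λ : ℝ}
    (hu : Sub S u M Λ) : ∃ C' ρ₀ : ℝ, 0 < C' ∧ 0 < ρ₀ ∧ ∀ ε : ℝ, 0 < ε → ε ≤ ρ₀ →
      ∀ x₀ x₁ x₂ x₃ e₁ e₂ : E n, D S u x₀ x₁ ≤ ε ^ 2 → D S u x₁ x₂ ≤ ε ^ 2 → D S u x₂ x₃ ≤ ε ^ 2 →
        ‖e₁‖ ≤ 2 * ε → ‖e₂‖ ≤ 2 * ε → D S u (x₁ + e₁) (x₂ + e₂) ≤ C' * ε ^ 2 := by
  have hM : 0 ≤ M := (abs_nonneg _).trans (hu.bd 0)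
  obtain ⟨Cs, hCs⟩ : ∃ Cs : ℝ, Cs = a + b * (1 + 2 * M) := ⟨_, rfl⟩
  have hCs0 : 0 ≤ Cs := by
    rw [hCs]
    have h1 : 0 ≤ b * (1 + 2 * M) := mul_nonneg hS.hb (by linarith)
    linarith [hS.ha]
  refine ⟨10 + 24 * Cs, 1 / (12 + 24 * Cs), by linarith, by positivity, ?_⟩
  intro ε hε hερ x₀ x₁ x₂ x₃ e₁ e₂ h1 h2 h3 he1 he2
  have hd : 0 < 12 + 24 * Cs := by linarith
  rw [le_div_iff₀ hd] at hερ
  have hε1 : 2 * ε ≤ 1 := by nlinarith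
  have hε2 : (10 + 24 * Cs) * ε ^ 2 ≤ 1 := by
    have h4 : (10 + 24 * Cs) * ε ≤ 1 := by nlinarith
    have h5 : (10 + 24 * Cs) * ε * ε ≤ 1 * ε := by gcongr
    nlinarith
  have hε3 : 0 < ε ^ 2 := by positivity
  have hε4 : 0 ≤ Cs * ε ^ 2 := by positivity
  have hε5 : ε ^ 2 ≤ 1 := by nlinarith
  have hn1 : ‖e₁‖ ^ 2 ≤ 4 * ε ^ 2 := by
    have h4 : ‖e₁‖ ^ 2 ≤ (2 * ε) ^ 2 := pow_le_pow_left₀ (norm_nonneg _) he1 2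
    linarith [h4, mul_pow 2 ε 2]
  have hn2 : ‖e₂‖ ^ 2 ≤ 4 * ε ^ 2 := by
    have h4 : ‖e₂‖ ^ 2 ≤ (2 * ε) ^ 2 := pow_le_pow_left₀ (norm_nonneg _) he2 2
    linarith [h4, mul_pow 2 ε 2]
  have hc1 : Cs * ‖e₁‖ ^ 2 ≤ Cs * (4 * ε ^ 2) := mul_le_mul_of_nonneg_left hn1 hCs0
  have hc2 : Cs * ‖e₂‖ ^ 2 ≤ Cs * (4 * ε ^ 2) := mul_le_mul_of_nonneg_left hn2 hCs0
  have s1 := edge_one hS hu (e := e₁) (h1.trans hε5) (h2.trans hε5) (he1.trans hε1)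
  rw [← hCs] at s1
  have p1 : 0 ≤ D S u x₀ (x₁ + e₁) := D_nonneg hu _ _
  have s2 : D S u (x₁ + e₁) x₂ ≤ 4 * ε ^ 2 + 8 * (Cs * ε ^ 2) := by
    linarith
  have s3 : D S u (x₁ + e₁) x₂ ≤ 1 := by
    linarith
  have s4 := edge_one hS hu (e := e₂) s3 (h3.trans hε5) (he2.trans hε1)
  rw [← hCs] at s4
  have p2 : 0 ≤ D S u (x₂ + e₂) x₃ := D_nonneg hu _ _
  linarith

end Pool.Agent.H99.EC
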