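import Pool.Agent.H99.EC.Few
import Pool.Agent.H99.EC.Edge
import Pool.Agent.H99.EC.Walk
import Pool.Agent.H99.EC.FarC

/-!
# Module Drift (note 5670, (4))
-/

set_option autoImplicit false

open MeasureTheory Filter
open scoped RealInnerProductSpace

namespace Pool.Agent.H99.EC

open Pool.Agent.H33.AM (E Tor pr IsPeriodic)
open Pool.Agent.H68.HD

variable {n : ℕ}

private theorem dr_step {S : E n → E n → ℝ} {a b κ K : ℝ} (hS : Pot S a b κ K) {u : E n → ℝ}
    {M Λ : ℝ} (hu : Sub S u M Λ) : ∃ A : ℝ, 0 ≤ A ∧ ∀ x y, ‖y - x‖ ≤ A * (1 + D S u x y) := by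
  have hκ := hS.pos
  have hK := hS.hK
  refine ⟨1 + (1 + 2 * |M| + K) / κ, by positivity, fun x y => ?_⟩
  have h0 := D_nonneg hu x y
  have h1 := hS.lb x y
  have h2 := abs_le.1 (hu.bd x)
  have h3 := abs_le.1 (hu.bd y)
  have h4 := le_abs_self M
  have h5 : κ * ‖y - x‖ ^ 2 ≤ D S u x y + 2 * |M| + K := by
    unfold D
    linarith
  have h6 : ‖y - x‖ ^ 2 ≤ (D S u x y + 2 * |M| + K) / κ := by
    rw [le_div_iff₀ hκ]
    linarith
  have h7 : ‖y - x‖ ≤ 1 + ‖y - x‖ ^ 2 := by nlinarith [sq_nonneg (‖y - x‖ - 1), norm_nonneg (y - x)]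
  have h8 : (D S u x y + 2 * |M| + K) / κ ≤ (1 + 2 * |M| + K) / κ * (1 + D S u x y) := by
    rw [div_mul_eq_mul_div]
    refine div_le_div_of_nonneg_right ?_ hκ.le
    have h9 := abs_nonneg M
    nlinarith [mul_nonneg h9 h0, mul_nonneg hK h0]
  have h9 : (1 + (1 + 2 * |M| + K) / κ) * (1 + D S u x y) =
      (1 + D S u x y) + (1 + 2 * |M| + K) / κ * (1 + D S u x y) := by ring
  rw [h9]
  linarith

private theorem dr_pred (d : ℕ → ℝ) (hd : ∀ i, 0 ≤ d i) (N : ℕ) :
    ∑ i ∈ Finset.range N, d (i - 1) ≤ 2 * ∑ i ∈ Finset.range (N + 2), d i := by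
  have hmono : ∀ m m' : ℕ, m ≤ m' → ∑ i ∈ Finset.range m, d i ≤ ∑ i ∈ Finset.range m', d i :=
    fun m m' h => Finset.sum_le_sum_of_subset_of_nonneg (Finset.range_mono h) fun i _ _ => hd i
  rcases N with _ | m
  · simp only [Finset.range_zero, Finset.sum_empty]
    have := Finset.sum_nonneg (s := Finset.range (0 + 2)) (f := d) fun i _ => hd i
    linarith
  · rw [Finset.sum_range_succ']
    have h1 : ∑ k ∈ Finset.range m, d (k + 1 - 1) = ∑ k ∈ Finset.range m, d k := rfl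
    have h2 : d (0 - 1) = ∑ i ∈ Finset.range 1, d i := by simp
    rw [h1, h2]
    have h3 := hmono m (m + 1 + 2) (by omega)
    have h4 := hmono 1 (m + 1 + 2) (by omega)
    linarith

private theorem dr_succ (d : ℕ → ℝ) (hd : ∀ i, 0 ≤ d i) (N : ℕ) :
    ∑ i ∈ Finset.range N, d (i + 1) ≤ ∑ i ∈ Finset.range (N + 1), d i := by
  rw [Finset.sum_range_succ']
  linarith [hd 0]

/-- The induction over the irregular indices. -/
private theorem dr_ind (Irr : ℕ → Prop) (h0 : Irr 0) (Φ e : ℕ → ℝ) (c₂ : ℝ) (hc : 0 ≤ c₂)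
    (he : ∀ i, 0 ≤ e i) (hΦ0 : Φ 0 = 0)
    (hstep : ∀ a N : ℕ, a < N → Irr a → (∀ i, a < i → i < N → ¬ Irr i) → Φ N ≤ Φ a + e a + c₂)
    [DecidablePred Irr] (N : ℕ) :
    Φ N ≤ c₂ + ∑ i ∈ (Finset.range N).filter Irr, (c₂ + e i) := by
  induction N using Nat.strong_induction_on with
  | _ N ih =>
    rcases Nat.eq_zero_or_pos N with rfl | hN
    · rw [hΦ0]
      simp only [Finset.range_zero, Finset.filter_empty, Finset.sum_empty]
      linarith
    · have hne : ((Finset.range N).filter Irr).Nonempty :=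
        ⟨0, Finset.mem_filter.2 ⟨Finset.mem_range.2 hN, h0⟩⟩
      obtain ⟨a, ha, hmax⟩ := ((Finset.range N).filter Irr).exists_max_image id hne
      rw [Finset.mem_filter, Finset.mem_range] at ha
      have h1 := hstep a N ha.1 ha.2 (fun i hai hiN hi => by
        have h2 := hmax i (Finset.mem_filter.2 ⟨Finset.mem_range.2 hiN, hi⟩)
        simp only [id] at h2
        omega)
      have h2 := ih a ha.1
      have h3 : ∑ i ∈ (Finset.range a).filter Irr, (c₂ + e i) + (c₂ + e a) ≤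
          ∑ i ∈ (Finset.range N).filter Irr, (c₂ + e i) := by
        have h4 : a ∉ (Finset.range a).filter Irr := by
          rw [Finset.mem_filter, Finset.mem_range]
          exact fun h => lt_irrefl _ h.1
        have h5 : insert a ((Finset.range a).filter Irr) ⊆ (Finset.range N).filter Irr := by
          intro i hi
          rw [Finset.mem_insert] at hi
          rcases hi with rfl | hi
          · exact Finset.mem_filter.2 ⟨Finset.mem_range.2 ha.1, ha.2⟩
          · rw [Finset.mem_filter, Finset.mem_range] at hi ⊢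
            exact ⟨hi.1.trans ha.1, hi.2⟩
        calc ∑ i ∈ (Finset.range a).filter Irr, (c₂ + e i) + (c₂ + e a)
            = ∑ i ∈ insert a ((Finset.range a).filter Irr), (c₂ + e i) := by
              rw [Finset.sum_insert h4]
              ring
          _ ≤ _ := Finset.sum_le_sum_of_subset_of_nonneg h5 fun i _ _ => add_nonneg hc (he i)
      linarith

theorem drift {S : E n → E n → ℝ} {a b κ K : ℝ} (hS : Pot S a b κ K) {u : E n → ℝ} {M Λ : ℝ}
    (hu : Sub S u M Λ) {C' ρ₀ : ℝ} (hC' : 0 < C') (hedge : ∀ ε : ℝ, 0 < ε → ε ≤ ρ₀ →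
      ∀ x₀ x₁ x₂ x₃ e₁ e₂ : E n, D S u x₀ x₁ ≤ ε ^ 2 → D S u x₁ x₂ ≤ ε ^ 2 → D S u x₂ x₃ ≤ ε ^ 2 →
        ‖e₁‖ ≤ 2 * ε → ‖e₂‖ ≤ 2 * ε → D S u (x₁ + e₁) (x₂ + e₂) ≤ C' * ε ^ 2)
    {ε : ℝ} (hε : 0 < ε) (hε' : ε ≤ ρ₀) (hε1 : C' * ε ^ 2 ≤ 1) (F : Finset (E n))
    (hF : ∀ x, Aub S x → ∃ v ∈ F, ∃ z, ‖x - (v + zv z)‖ ≤ ε) {θ : E n} {σ : ℝ}
    (hloop : ∀ f k z, Cl f k z → k ≤ F.card → (∀ i < k, D S u (f i) (f (i + 1)) ≤ C' * ε ^ 2) →
      ⟪θ, zv z⟫ + σ * k ≤ 0) :
    ∃ C : ℝ, 0 ≤ C ∧ ∀ (g : ℕ → E n) (N : ℕ),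
      ⟪θ, g N - g 0⟫ + σ * N ≤ C * (1 + DS S u g (N + 2)) := by
  classical
  obtain ⟨κ₀, hκ₀, hfar⟩ := far_cost hS hu hε
  obtain ⟨Cf, hCf, hfew⟩ := few hS hu hκ₀ hfar
  obtain ⟨R, hR0, hR⟩ := step_bound hS hu
  obtain ⟨A, hA0, hA⟩ := dr_step hS hu
  obtain ⟨C₀, hC₀⟩ : ∃ C₀ : ℝ, C₀ = ‖θ‖ * R + |σ| := ⟨_, rfl⟩
  have hC₀0 : 0 ≤ C₀ := by
    rw [hC₀]
    positivity
  obtain ⟨c₂, hc₂⟩ : ∃ c₂ : ℝ, c₂ = F.card * C₀ + 4 * ε * ‖θ‖ := ⟨_, rfl⟩
  have hc₂0 : 0 ≤ c₂ := by
    rw [hc₂]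
    positivity
  obtain ⟨B, hB⟩ : ∃ B : ℝ, B = ‖θ‖ * A + |σ| := ⟨_, rfl⟩
  have hB0 : 0 ≤ B := by
    rw [hB]
    positivity
  have hε2 : 0 < ε ^ 2 := by positivity
  have hnear : ∀ x, ¬ Far S ε x → ∃ y, (∃ v ∈ F, ∃ z, y = v + zv z) ∧ ‖y - x‖ ≤ 2 * ε := by
    intro x hx
    unfold Far at hx
    push Not at hx
    obtain ⟨a', ha', hxa⟩ := hx
    obtain ⟨v, hv, z, hz⟩ := hF a' ha'
    refine ⟨v + zv z, ⟨v, hv, z, rfl⟩, ?_⟩
    calc ‖v + zv z - x‖ = ‖(x - a') + (a' - (v + zv z))‖ := by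
          rw [← norm_neg]
          congr 1
          abel
      _ ≤ ‖x - a'‖ + ‖a' - (v + zv z)‖ := norm_add_le _ _
      _ ≤ 2 * ε := by linarith
  have hPC : ∀ x y, D S u x y ≤ C' * ε ^ 2 → ⟪θ, y - x⟫ + σ ≤ C₀ := by
    intro x y hxy
    have h1 : ‖y - x‖ ≤ R := hR x y (by
      have h2 : D S u x y ≤ 1 := hxy.trans hε1
      exact h2)
    have h3 : ⟪θ, y - x⟫ ≤ ‖θ‖ * R :=
      (real_inner_le_norm _ _).trans (mul_le_mul_of_nonneg_left h1 (norm_nonneg _))
    rw [hC₀]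
    linarith [le_abs_self σ]
  refine ⟨c₂ + (c₂ + B) * (1 + 4 / ε ^ 2 + 2 * Cf) + B, by positivity, fun g N => ?_⟩
  obtain ⟨d, hd⟩ : ∃ d : ℕ → ℝ, ∀ i, d i = D S u (g i) (g (i + 1)) := ⟨_, fun _ => rfl⟩
  have hd0 : ∀ i, 0 ≤ d i := fun i => by
    rw [hd]
    exact D_nonneg hu _ _
  have hDS : ∀ m, DS S u g m = ∑ i ∈ Finset.range m, d i := fun m =>
    Finset.sum_congr rfl fun i _ => (hd i).symm
  obtain ⟨Irr, hIrr⟩ : ∃ Irr : ℕ → Prop, ∀ i, Irr i ↔ (i = 0 ∨ ε ^ 2 < d (i - 1) ∨ ε ^ 2 < d i ∨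
      ε ^ 2 < d (i + 1) ∨ Far S ε (g i) ∨ Far S ε (g (i + 1))) := ⟨_, fun _ => Iff.rfl⟩
  have hmain := dr_ind Irr ((hIrr 0).2 (Or.inl rfl)) (fun m => ⟪θ, g m - g 0⟫ + σ * m)
    (fun i => B * (1 + d i)) c₂ hc₂0 (fun i => mul_nonneg hB0 (by linarith [hd0 i]))
    (by simp) (fun a' N' haN _ hreg => by
      -- one step and one regular segment
      have hs : ⟪θ, g (a' + 1) - g a'⟫ + σ ≤ B * (1 + d a') := by
        have h1 := hA (g a') (g (a' + 1))
        rw [← hd] at h1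
        have h2 : ⟪θ, g (a' + 1) - g a'⟫ ≤ ‖θ‖ * (A * (1 + d a')) :=
          (real_inner_le_norm _ _).trans (mul_le_mul_of_nonneg_left h1 (norm_nonneg _))
        have h3 : σ ≤ |σ| * (1 + d a') := by
          have h4 := le_abs_self σ
          have h5 := mul_nonneg (abs_nonneg σ) (hd0 a')
          linarith
        rw [hB]
        calc ⟪θ, g (a' + 1) - g a'⟫ + σ ≤ ‖θ‖ * (A * (1 + d a')) + |σ| * (1 + d a') := by linarith
          _ = _ := by ring
      obtain ⟨L, hL⟩ : ∃ L : ℕ, N' = a' + 1 + L := ⟨N' - (a' + 1), by omega⟩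
      have hseg : ⟪θ, g N' - g (a' + 1)⟫ + σ * L ≤ c₂ := by
        rcases Nat.eq_zero_or_pos L with hL0 | hLpos
        · have h1 : N' = a' + 1 := by omega
          rw [h1, hL0]
          simp only [sub_self, inner_zero_right, Nat.cast_zero, mul_zero, add_zero]
          exact hc₂0
        · have hreg' : ∀ j, j < L → ¬ Irr (a' + 1 + j) := fun j hj =>
            hreg _ (by omega) (by omega)
          have hnf : ∀ j, j ≤ L → ¬ Far S ε (g (a' + 1 + j)) := by
            intro j hj hf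
            rcases Nat.lt_or_ge j L with h1 | h1
            · exact hreg' j h1 ((hIrr _).2 (Or.inr (Or.inr (Or.inr (Or.inr (Or.inl hf))))))
            · obtain ⟨j', hj'⟩ : ∃ j', j = j' + 1 := ⟨j - 1, by omega⟩
              refine hreg' j' (by omega) ((hIrr _).2 (Or.inr (Or.inr (Or.inr (Or.inr (Or.inr ?_))))))
              have h2 : a' + 1 + j' + 1 = a' + 1 + j := by omega
              rw [h2]
              exact hf
          have hy : ∀ j, ∃ y, j ≤ L → (∃ v ∈ F, ∃ z, y = v + zv z) ∧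
              ‖y - g (a' + 1 + j)‖ ≤ 2 * ε := by
            intro j
            by_cases hj : j ≤ L
            · obtain ⟨y, h1, h2⟩ := hnear _ (hnf j hj)
              exact ⟨y, fun _ => ⟨h1, h2⟩⟩
            · exact ⟨0, fun h => absurd h hj⟩
          choose y hy using hy
          have hwalk := walk (P := fun x y => D S u x y ≤ C' * ε ^ 2)
            (fun x y z hxy => by
              show D S u (x + zv z) (y + zv z) ≤ _
              rw [D_per hS hu]
              exact hxy) F hC₀0 hPC hloop L y (fun j hj => (hy j hj).1) (fun j hj => by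
              have hnr := hreg' j hj
              rw [hIrr] at hnr
              push Not at hnr
              obtain ⟨-, h1, h2, h3, -, -⟩ := hnr
              have e1 := (hy j hj.le).2
              have e2 := (hy (j + 1) hj).2
              have e3 : a' + 1 + (j + 1) = a' + 1 + j + 1 := by omega
              rw [e3] at e2
              have h4 := hedge ε hε hε' (g (a' + 1 + j - 1)) (g (a' + 1 + j)) (g (a' + 1 + j + 1))
                (g (a' + 1 + j + 1 + 1)) (y j - g (a' + 1 + j)) (y (j + 1) - g (a' + 1 + j + 1)) (by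
                  rw [hd] at h1
                  have e4 : a' + 1 + j - 1 + 1 = a' + 1 + j := by omega
                  rw [e4] at h1
                  exact h1) (by rw [hd] at h2; exact h2) (by rw [hd] at h3; exact h3) e1 e2
              rw [add_sub_cancel, add_sub_cancel] at h4
              exact h4)
          have e0 := (hy 0 (Nat.zero_le L)).2
          have eL := (hy L le_rfl).2
          rw [← hL] at eL
          rw [Nat.add_zero] at e0
          have h5 : g N' - g (a' + 1) = (y L - y 0) + ((y 0 - g (a' + 1)) - (y L - g N')) := by abel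
          have h6 : ⟪θ, (y 0 - g (a' + 1)) - (y L - g N')⟫ ≤ ‖θ‖ * (4 * ε) := by
            refine (real_inner_le_norm _ _).trans (mul_le_mul_of_nonneg_left ?_ (norm_nonneg _))
            refine (norm_sub_le _ _).trans ?_
            linarith
          rw [h5, inner_add_right, hc₂]
          linarith
      have h7 : g N' - g 0 = (g a' - g 0) + (g (a' + 1) - g a') + (g N' - g (a' + 1)) := by abel
      show ⟪θ, g N' - g 0⟫ + σ * N' ≤ (⟪θ, g a' - g 0⟫ + σ * a') + B * (1 + d a') + c₂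
      rw [h7, inner_add_right, inner_add_right]
      have h8 : (N' : ℝ) = a' + 1 + L := by
        rw [hL]
        push_cast
        ring
      rw [h8]
      have h9 : σ * ((a' : ℝ) + 1 + L) = σ * a' + σ + σ * L := by ring
      rw [h9]
      linarith) N
  -- counting
  obtain ⟨X, hX⟩ : ∃ X : ℝ, X = DS S u g (N + 2) := ⟨_, rfl⟩
  have hX0 : 0 ≤ X := by
    rw [hX]
    exact DS_nonneg hu _ _
  have hmono : ∀ m, m ≤ N + 2 → ∑ i ∈ Finset.range m, d i ≤ X := by
    intro m hm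
    rw [hX, ← hDS]
    exact DS_mono hu g hm
  obtain ⟨ι, hι⟩ : ∃ ι : ℕ → ℝ, ∀ i, ι i = if Far S ε (g i) then 1 else 0 := ⟨_, fun _ => rfl⟩
  have hι0 : ∀ i, 0 ≤ ι i := fun i => by
    rw [hι]
    split_ifs
    · exact zero_le_one
    · exact le_rfl
  have hιsum : ∀ m, m ≤ N + 2 → ∑ i ∈ Finset.range m, ι i ≤ Cf * (1 + X) := by
    intro m hm
    have h1 := hfew g m
    have h2 : ∑ i ∈ Finset.range m, ι i = (((Finset.range m).filter fun i => Far S ε (g i)).card : ℝ) := by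
      rw [← Finset.sum_boole]
      exact Finset.sum_congr rfl fun i _ => hι i
    rw [h2]
    refine h1.trans (mul_le_mul_of_nonneg_left ?_ hCf)
    have h3 := hmono m hm
    rw [← hDS] at h3
    linarith
  have hcount : (((Finset.range N).filter Irr).card : ℝ) ≤ 1 + 4 / ε ^ 2 * X + 2 * (Cf * (1 + X)) := by
    have h1 : (((Finset.range N).filter Irr).card : ℝ) = ∑ i ∈ Finset.range N, if Irr i then (1 : ℝ) else 0 := by
      rw [Finset.sum_boole]
    have h2 : ∀ i ∈ Finset.range N, (if Irr i then (1 : ℝ) else 0) ≤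
        (if i = 0 then 1 else 0) + (1 / ε ^ 2 * d (i - 1) + 1 / ε ^ 2 * d i + 1 / ε ^ 2 * d (i + 1)) +
          (ι i + ι (i + 1)) := by
      intro i _
      have hε3 : 0 < 1 / ε ^ 2 := by positivity
      have p1 := mul_nonneg hε3.le (hd0 (i - 1))
      have p2 := mul_nonneg hε3.le (hd0 i)
      have p3 := mul_nonneg hε3.le (hd0 (i + 1))
      have p4 := hι0 i
      have p5 := hι0 (i + 1)
      have p6 : (0 : ℝ) ≤ if i = 0 then 1 else 0 := by
        split_ifs
        · exact zero_le_one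
        · exact le_rfl
      have hbig : ∀ t : ℝ, ε ^ 2 < t → 1 ≤ 1 / ε ^ 2 * t := by
        intro t ht
        rw [one_div, inv_mul_eq_div, le_div_iff₀ hε2, one_mul]
        exact ht.le
      by_cases hi : Irr i
      · rw [if_pos hi]
        rcases (hIrr i).1 hi with h | h | h | h | h | h
        · rw [if_pos h]
          linarith
        · linarith [hbig _ h]
        · linarith [hbig _ h]
        · linarith [hbig _ h]
        · have : ι i = 1 := by rw [hι, if_pos h]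
          linarith
        · have : ι (i + 1) = 1 := by rw [hι, if_pos h]
          linarith
      · rw [if_neg hi]
        linarith
    rw [h1]
    refine (Finset.sum_le_sum h2).trans ?_
    rw [Finset.sum_add_distrib, Finset.sum_add_distrib, Finset.sum_add_distrib,
      Finset.sum_add_distrib, Finset.sum_add_distrib, ← Finset.mul_sum, ← Finset.mul_sum,
      ← Finset.mul_sum]
    have q1 : ∑ i ∈ Finset.range N, (if i = 0 then (1 : ℝ) else 0) ≤ 1 := by
      rw [Finset.sum_ite_eq']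
      split_ifs
      · exact le_rfl
      · exact zero_le_one
    have q2 : ∑ i ∈ Finset.range N, d (i - 1) ≤ 2 * X := by
      have := dr_pred d hd0 N
      rw [← hDS, ← hX] at this
      exact this
    have q3 : ∑ i ∈ Finset.range N, d i ≤ X := hmono N (by omega)
    have q4 : ∑ i ∈ Finset.range N, d (i + 1) ≤ X :=
      (dr_succ d hd0 N).trans (hmono (N + 1) (by omega))
    have q5 : ∑ i ∈ Finset.range N, ι i ≤ Cf * (1 + X) := hιsum N (by omega)
    have q6 : ∑ i ∈ Finset.range N, ι (i + 1) ≤ Cf * (1 + X) :=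
      (dr_succ ι hι0 N).trans (hιsum (N + 1) (by omega))
    have hε3 : 0 < 1 / ε ^ 2 := by positivity
    have r2 := mul_le_mul_of_nonneg_left q2 hε3.le
    have r3 := mul_le_mul_of_nonneg_left q3 hε3.le
    have r4 := mul_le_mul_of_nonneg_left q4 hε3.le
    have r5 : 4 / ε ^ 2 * X = 1 / ε ^ 2 * (2 * X) + 1 / ε ^ 2 * X + 1 / ε ^ 2 * X := by ring
    rw [r5]
    linarith
  have hW : ∑ i ∈ (Finset.range N).filter Irr, (c₂ + B * (1 + d i)) ≤
      (c₂ + B) * (1 + 4 / ε ^ 2 * X + 2 * (Cf * (1 + X))) + B * X := by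
    have h1 : ∑ i ∈ (Finset.range N).filter Irr, (c₂ + B * (1 + d i)) =
        (c₂ + B) * ((Finset.range N).filter Irr).card + B * ∑ i ∈ (Finset.range N).filter Irr, d i := by
      rw [Finset.mul_sum, mul_comm (c₂ + B), ← nsmul_eq_mul, ← Finset.sum_const, ← Finset.sum_add_distrib]
      refine Finset.sum_congr rfl fun i _ => ?_
      ring
    have h2 : ∑ i ∈ (Finset.range N).filter Irr, d i ≤ X :=
      (Finset.sum_le_sum_of_subset_of_nonneg (Finset.filter_subset _ _) fun i _ _ => hd0 i).trans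
        (hmono N (by omega))
    rw [h1]
    exact add_le_add (mul_le_mul_of_nonneg_left hcount (by positivity))
      (mul_le_mul_of_nonneg_left h2 hB0)
  rw [← hX]
  have hmain' : ⟪θ, g N - g 0⟫ + σ * N ≤ c₂ + ∑ i ∈ (Finset.range N).filter Irr, (c₂ + B * (1 + d i)) := hmain
  have hε3 : 0 ≤ 4 / ε ^ 2 := by positivity
  have s1 : 0 ≤ c₂ + B := by positivity
  have s2 : (c₂ + B) * (1 + 4 / ε ^ 2 * X + 2 * (Cf * (1 + X))) ≤
      (c₂ + B) * ((1 + 4 / ε ^ 2 + 2 * Cf) * (1 + X)) := by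
    refine mul_le_mul_of_nonneg_left ?_ s1
    nlinarith
  calc ⟪θ, g N - g 0⟫ + σ * N ≤ c₂ + ((c₂ + B) * ((1 + 4 / ε ^ 2 + 2 * Cf) * (1 + X)) + B * X) := by
        linarith
    _ ≤ c₂ * (1 + X) + (c₂ + B) * ((1 + 4 / ε ^ 2 + 2 * Cf) * (1 + X)) + B * (1 + X) := by
        nlinarith [mul_nonneg hc₂0 hX0]
    _ = _ := by ring

end Pool.Agent.H99.EC
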